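import Mathlib

set_option autoImplicit false

/-!
Boolean dimension of finite posets and the deletion of one point.
-/

namespace Pool.Agent.Q108.BDim

open Classical in
/-- The vector `q(x,y)`: its `i`-th entry is `true` if `x < y` in the linear order `L i`,
and `false` otherwise. -/
noncomputable def q {α : Type*} {d : ℕ} (L : Fin d → LinearOrder α) (x y : α) : Fin d → Bool :=
  fun i => decide ((L i).lt x y)

/-- The poset `α` has a Boolean realizer of size `d`: linear orders `L 0, …, L (d-1)` and
a function `φ : {0,1}^d → {0,1}` such that for distinct `x, y`: `x < y` iff `φ (q(x,y)) = 1`. -/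
def HasRealizer (α : Type*) [PartialOrder α] (d : ℕ) : Prop :=
  ∃ (L : Fin d → LinearOrder α) (φ : (Fin d → Bool) → Bool),
    ∀ x y : α, x ≠ y → (x < y ↔ φ (q L x y) = true)

/-- The Boolean dimension: the least `d` for which there is a Boolean realizer of size `d`. -/
noncomputable def bdim (α : Type*) [PartialOrder α] : ℕ := sInf {d | HasRealizer α d}

/-- The same with the size `0` excluded. -/
noncomputable def bdimPos (α : Type*) [PartialOrder α] : ℕ := sInf {d | 1 ≤ d ∧ HasRealizer α d}

/-- Boolean realizers by injective functions to `ℕ`. -/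
def KR (ι α : Type*) [PartialOrder α] : Prop :=
  ∃ (f : ι → α → ℕ) (φ : (ι → Bool) → Bool), (∀ i, Function.Injective (f i)) ∧
    ∀ x y : α, x ≠ y → (x < y ↔ φ (fun i => decide (f i x < f i y)) = true)

variable {α : Type*} [PartialOrder α] {ι κ : Type*}

lemma hasRealizer_of_KR {d : ℕ} (h : KR (Fin d) α) : HasRealizer α d := by
  obtain ⟨f, φ, hf, hφ⟩ := h
  refine ⟨fun i => LinearOrder.lift' (f i) (hf i), φ, ?_⟩
  intro x y hxy
  rw [hφ x y hxy]
  have : (fun i => decide (f i x < f i y)) =
      q (fun i => LinearOrder.lift' (f i) (hf i)) x y := by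
    funext i
    unfold q
    exact decide_eq_decide.mpr Iff.rfl
  rw [this]

lemma exists_rank {β : Type*} [Finite β] (L : LinearOrder β) :
    ∃ f : β → ℕ, Function.Injective f ∧ ∀ x y, f x < f y ↔ L.lt x y := by
  have := Fintype.ofFinite β
  let _ := L
  let e := Fintype.orderIsoFinOfCardEq β rfl
  refine ⟨fun a => (e.symm a : ℕ), ?_, ?_⟩
  · intro a b hab
    exact e.symm.injective (Fin.ext hab)
  · intro a b
    show ((e.symm a : Fin _) : ℕ) < (e.symm b : ℕ) ↔ a < b
    rw [← Fin.lt_def]
    exact e.symm.lt_iff_lt

lemma KR_of_hasRealizer [Finite α] {d : ℕ} (h : HasRealizer α d) : KR (Fin d) α := by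
  obtain ⟨L, φ, hφ⟩ := h
  choose f hf hlt using fun i => exists_rank (L i)
  refine ⟨f, φ, hf, ?_⟩
  intro x y hxy
  rw [hφ x y hxy]
  have : (fun i => decide (f i x < f i y)) = q L x y := by
    funext i
    unfold q
    exact decide_eq_decide.mpr (hlt i x y)
  rw [this]

lemma KR_equiv (e : ι ≃ κ) (h : KR ι α) : KR κ α := by
  obtain ⟨f, φ, hf, hφ⟩ := h
  refine ⟨fun k => f (e.symm k), fun v => φ (fun i => v (e i)), fun k => hf _, ?_⟩
  intro x y hxy
  rw [hφ x y hxy]
  simp

lemma exists_inj (β : Type*) [Finite β] : ∃ σ : β → ℕ, Function.Injective σ := by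
  have := Fintype.ofFinite β
  exact ⟨fun a => (Fintype.equivFin β a : ℕ), fun a b hab =>
    (Fintype.equivFin β).injective (Fin.ext hab)⟩

lemma exists_bound {β : Type*} [Finite β] (f : β → ℕ) : ∃ B, ∀ y, f y < B := by
  obtain ⟨B, hB⟩ := (Set.finite_range f).bddAbove
  exact ⟨B + 1, fun y => Nat.lt_succ_of_le (hB ⟨y, rfl⟩)⟩

lemma KR_pad [Finite α] (κ : Type*) (h : KR ι α) : KR (ι ⊕ κ) α := by
  obtain ⟨f, φ, hf, hφ⟩ := h
  obtain ⟨σ, hσ⟩ := exists_inj α
  refine ⟨Sum.elim f (fun _ => σ), fun v => φ (fun i => v (Sum.inl i)), ?_, ?_⟩
  · rintro (i | i)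
    · exact hf i
    · exact hσ
  · intro x y hxy
    rw [hφ x y hxy]
    exact Iff.rfl

lemma KR_inj [Finite α] (e : ι → κ) (he : Function.Injective e) (h : KR ι α) : KR κ α := by
  classical
  obtain ⟨f, φ, hf, hφ⟩ := h
  obtain ⟨σ, hσ⟩ := exists_inj α
  refine ⟨Function.extend e f (fun _ => σ), fun v => φ (fun i => v (e i)), ?_, ?_⟩
  · intro k
    by_cases hk : ∃ i, e i = k
    · obtain ⟨i, rfl⟩ := hk
      rw [he.extend_apply]
      exact hf i
    · rw [Function.extend_apply' _ _ _ hk]
      exact hσ
  · intro x y hxy
    rw [hφ x y hxy]
    have : (fun i => decide (Function.extend e f (fun _ => σ) (e i) x <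
        Function.extend e f (fun _ => σ) (e i) y)) = fun i => decide (f i x < f i y) := by
      funext i
      rw [he.extend_apply]
    show _ ↔ φ (fun i => decide (Function.extend e f (fun _ => σ) (e i) x <
        Function.extend e f (fun _ => σ) (e i) y)) = true
    rw [this]

/-- A reversed copy has the same realizers. -/
lemma KR_rev {β : Type*} [PartialOrder β] (e : α → β) (he : Function.Injective e)
    (hlt : ∀ a b, a < b ↔ e b < e a) (h : KR ι β) : KR ι α := by
  obtain ⟨f, φ, hf, hφ⟩ := h
  refine ⟨fun i a => f i (e a), fun v => φ (fun i => !v i), fun i => (hf i).comp he, ?_⟩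
  intro x y hxy
  rw [hlt x y, hφ (e y) (e x) (fun h => hxy (he h.symm))]
  have : (fun i => decide (f i (e y) < f i (e x))) =
      fun i => !decide (f i (e x) < f i (e y)) := by
    funext i
    have hne : f i (e x) ≠ f i (e y) := fun h => hxy (he (hf i h))
    by_cases h1 : f i (e y) < f i (e x)
    · have h2 : ¬ f i (e x) < f i (e y) := by omega
      simp [h1, h2]
    · have h2 : f i (e x) < f i (e y) := by omega
      simp [h1, h2]
  rw [this]

/-- The data of a realizer of `α` without the point `x`, written on `α`. -/
lemma KR_extend [Finite α] (x : α) (h : KR ι {y : α // y ≠ x}) :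
    ∃ (f : ι → α → ℕ) (φ : (ι → Bool) → Bool) (B : ι → ℕ), (∀ i y, f i y < B i) ∧
      (∀ i y z, y ≠ x → z ≠ x → f i y = f i z → y = z) ∧
      ∀ y z, y ≠ x → z ≠ x → y ≠ z → (y < z ↔ φ (fun i => decide (f i y < f i z)) = true) := by
  classical
  obtain ⟨f, φ, hf, hφ⟩ := h
  let g : ι → α → ℕ := fun i y => if h : y ≠ x then f i ⟨y, h⟩ else 0
  have hg : ∀ i y (h : y ≠ x), g i y = f i ⟨y, h⟩ := fun i y h => by simp [g, h]
  choose B hB using fun i => exists_bound (g i)
  refine ⟨g, φ, B, hB, ?_, ?_⟩
  · intro i y z hy hz h
    rw [hg i y hy, hg i z hz] at h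
    have := hf i h
    simpa using this
  · intro y z hy hz hyz
    have := hφ ⟨y, hy⟩ ⟨z, hz⟩ (by simpa using hyz)
    rw [Subtype.mk_lt_mk] at this
    rw [this]
    have : (fun i => decide (g i y < g i z)) =
        fun i => decide (f i ⟨y, hy⟩ < f i ⟨z, hz⟩) := by
      funext i
      rw [hg i y hy, hg i z hz]
    rw [this]

/-- A finite poset has a linear extension (as an injective function to `ℕ`). -/
lemma exists_linext (β : Type*) [Finite β] [PartialOrder β] :
    ∃ τ : β → ℕ, Function.Injective τ ∧ ∀ x y, x < y → τ x < τ y := by
  have hfin : Finite (LinearExtension β) := inferInstanceAs (Finite β)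
  let L : LinearOrder (LinearExtension β) := inferInstance
  obtain ⟨f, hf, hlt⟩ := exists_rank L
  refine ⟨fun b => f (toLinearExtension b), fun a b h => ?_, fun x y hxy => ?_⟩
  · exact hf h
  · rw [hlt]
    have h1 : toLinearExtension x ≤ toLinearExtension y := toLinearExtension.monotone hxy.le
    exact lt_of_le_of_ne h1 (fun h => hxy.ne h)

/-- Adding one point costs at most two linear orders. -/
theorem KR_add_two [Finite α] (x : α) (h : KR ι {y : α // y ≠ x}) : KR (ι ⊕ Bool) α := by
  classical
  obtain ⟨f, φ, B, hB, hinj, hφ⟩ := KR_extend x h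
  by_cases hneu : ∃ b : ι → Bool, φ b = false ∧ φ (fun i => !b i) = false
  · obtain ⟨b, hb, hb'⟩ := hneu
    obtain ⟨σ, hσ⟩ := exists_inj α
    obtain ⟨C, hC⟩ := exists_bound σ
    let F : ι ⊕ Bool → α → ℕ := fun k y =>
      match k with
      | Sum.inl i => if y = x then (if b i = true then 0 else B i + 1) else f i y + 1
      | Sum.inr false => if y = x then 2 * C else if y < x then C + σ y else
          if x < y then 2 * C + 1 + σ y else σ y
      | Sum.inr true => if y = x then C else if y < x then C - 1 - σ y else
          if x < y then 2 * C - σ y else 3 * C - σ y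
    let ψ : (ι ⊕ Bool → Bool) → Bool := fun v =>
      if v (Sum.inr false) = true ∧ v (Sum.inr true) = true ∧
        ((fun i => v (Sum.inl i)) = b ∨ (fun i => v (Sum.inl i)) = fun i => !b i) then true
      else φ (fun i => v (Sum.inl i))
    refine ⟨F, ψ, ?_, ?_⟩
    · rintro (i | i)
      · intro y z hyz
        have h1 := hB i y
        have h2 := hB i z
        by_cases hy : y = x <;> by_cases hz : z = x
        · rw [hy, hz]
        · simp only [F, hy, hz, if_true, if_false] at hyz
          split_ifs at hyz <;> omega
        · simp only [F, hy, hz, if_true, if_false] at hyz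
          split_ifs at hyz <;> omega
        · simp only [F, hy, hz, if_false] at hyz
          exact hinj i y z hy hz (by omega)
      · intro y z hyz
        have h1 := hC y
        have h2 := hC z
        by_contra hne
        have h3 : σ y ≠ σ z := fun h => hne (hσ h)
        cases i <;> simp only [F] at hyz <;> split_ifs at hyz <;>
          first | omega | (subst_vars; exact hne rfl)
    · have hq : ∀ y z, y ≠ x → z ≠ x → (fun i => decide (F (Sum.inl i) y < F (Sum.inl i) z)) =
          fun i => decide (f i y < f i z) := by
        intro y z hy hz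
        funext i
        simp only [F, hy, hz, if_false]
        simp
      have hqx : ∀ y, y ≠ x → (fun i => decide (F (Sum.inl i) x < F (Sum.inl i) y)) = b := by
        intro y hy
        funext i
        have h1 := hB i y
        simp only [F, hy, if_true, if_false]
        cases hbi : b i
        · simp
          omega
        · simp
      have hqy : ∀ y, y ≠ x → (fun i => decide (F (Sum.inl i) y < F (Sum.inl i) x)) =
          fun i => !b i := by
        intro y hy
        funext i
        have h1 := hB i y
        simp only [F, hy, if_true, if_false]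
        cases hbi : b i
        · simp
          omega
        · simp
      intro y z hyz
      show _ ↔ (if decide (F (Sum.inr false) y < F (Sum.inr false) z) = true ∧
        decide (F (Sum.inr true) y < F (Sum.inr true) z) = true ∧
        ((fun i => decide (F (Sum.inl i) y < F (Sum.inl i) z)) = b ∨
          (fun i => decide (F (Sum.inl i) y < F (Sum.inl i) z)) = fun i => !b i) then true
        else φ (fun i => decide (F (Sum.inl i) y < F (Sum.inl i) z))) = true
      by_cases hy : y = x
      · subst hy
        have hz : z ≠ y := fun h => hyz h.symm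
        rw [hqx z hz]
        simp only [true_or, and_true, hb]
        have h1 := hC z
        have h2 : ¬ (z < y ∧ y < z) := fun h => lt_asymm h.1 h.2
        by_cases h3 : y < z
        · have h4 : ¬ z < y := fun h => lt_asymm h3 h
          simp only [F, hz, h3, h4, if_true, if_false, true_iff]
          rw [if_pos]
          constructor <;> simp <;> omega
        · simp only [F, hz, h3, if_true, if_false, false_iff]
          rw [if_neg]
          · simp
          · by_cases h4 : z < y
            · simp only [h4, if_true]
              simp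
              omega
            · simp only [h4, if_false]
              simp
              omega
      · by_cases hz : z = x
        · subst hz
          rw [hqy y hy]
          simp only [or_true, and_true, hb']
          have h1 := hC y
          by_cases h3 : y < z
          · simp only [F, hy, h3, if_true, if_false, true_iff]
            rw [if_pos]
            constructor <;> simp <;> omega
          · simp only [F, hy, h3, if_true, if_false, false_iff]
            rw [if_neg]
            · simp
            · by_cases h4 : z < y
              · simp only [h4, if_true]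
                simp
                omega
              · simp only [h4, if_false]
                simp
                omega
        · rw [hq y z hy hz]
          split_ifs with hc
          · simp only [iff_true]
            obtain ⟨hc1, hc2, -⟩ := hc
            have h1 := hC y
            have h2 := hC z
            rw [decide_eq_true_eq] at hc1 hc2
            have key : y < x ∧ x < z := by
              simp only [F, hy, hz, if_false] at hc1 hc2
              by_contra hcon
              have e1 : y < x → ¬ x < y := fun h h' => lt_asymm h h'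
              have e2 : z < x → ¬ x < z := fun h h' => lt_asymm h h'
              split_ifs at hc1 hc2 <;> first | omega | (exact hcon ⟨by assumption, by assumption⟩)
            exact key.1.trans key.2
          · exact hφ y z hy hz hyz
  · -- the case of a chain
    have hchain : ∀ y z, y ≠ x → z ≠ x → y ≠ z → y < z ∨ z < y := by
      intro y z hy hz hyz
      by_contra hcon
      have h1 : ¬ y < z := fun h => hcon (Or.inl h)
      have h2 : ¬ z < y := fun h => hcon (Or.inr h)
      apply hneu
      refine ⟨fun i => decide (f i y < f i z), ?_, ?_⟩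
      · rw [hφ y z hy hz hyz] at h1
        simpa using h1
      · rw [hφ z y hz hy (Ne.symm hyz)] at h2
        have : (fun i => decide (f i z < f i y)) = fun i => !decide (f i y < f i z) := by
          funext i
          have hne : f i y ≠ f i z := fun h => hyz (hinj i y z hy hz h)
          by_cases h3 : f i y < f i z
          · have h4 : ¬ f i z < f i y := by omega
            simp [h3, h4]
          · have h4 : f i z < f i y := by omega
            simp [h3, h4]
        rw [this] at h2
        simpa using h2
    obtain ⟨τ, hτ, hmono⟩ := exists_linext α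
    obtain ⟨C, hC⟩ := exists_bound τ
    have h2 : KR Bool α := by
      let F : Bool → α → ℕ := fun k y =>
        match k with
        | false => if y = x then C else if y < x then τ y else C + 1 + τ y
        | true => if y = x then C else if x < y then C + 1 + τ y else τ y
      refine ⟨F, fun v => v false && v true, ?_, ?_⟩
      · intro k y z hyz
        have h1 := hC y
        have h2 := hC z
        by_contra hne
        have h3 : τ y ≠ τ z := fun h => hne (hτ h)
        cases k <;> simp only [F] at hyz <;> split_ifs at hyz <;>
          first | omega | (subst_vars; exact hne rfl)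
      · intro y z hyz
        have h1 := hC y
        have h2 := hC z
        have h3 : τ y ≠ τ z := fun h => hyz (hτ h)
        simp only [Bool.and_eq_true, decide_eq_true_eq]
        by_cases hy : y = x
        · subst hy
          have hz : z ≠ y := fun h => hyz h.symm
          by_cases h4 : y < z
          · have h5 : ¬ z < y := fun h => lt_asymm h4 h
            simp only [F, hz, h4, h5, if_true, if_false, true_iff]
            omega
          · simp only [F, hz, h4, if_true, if_false, false_iff]
            split_ifs <;> omega
        · by_cases hz : z = x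
          · subst hz
            by_cases h4 : y < z
            · have h5 : ¬ z < y := fun h => lt_asymm h4 h
              simp only [F, hy, h4, h5, if_true, if_false, true_iff]
              omega
            · simp only [F, hy, h4, if_true, if_false, false_iff]
              split_ifs <;> omega
          · constructor
            · intro h4
              have h5 := hmono y z h4
              have e1 : z < x → y < x := fun h => h4.trans h
              have e2 : x < y → x < z := fun h => h.trans h4
              simp only [F, hy, hz, if_false]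
              constructor
              · by_cases a1 : y < x
                · by_cases a2 : z < x <;> simp only [a1, a2, if_true, if_false] <;> omega
                · have a2 : ¬ z < x := fun h => a1 (e1 h)
                  simp only [a1, a2, if_false]
                  omega
              · by_cases a1 : x < y
                · have a2 := e2 a1
                  simp only [a1, a2, if_true]
                  omega
                · by_cases a2 : x < z <;> simp only [a1, a2, if_true, if_false] <;> omega
            · rintro ⟨h4, h5⟩
              rcases hchain y z hy hz hyz with h | h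
              · exact h
              · exfalso
                have h6 := hmono z y h
                have e1 : y < x → z < x := fun h' => h.trans h'
                have e2 : x < z → x < y := fun h' => h'.trans h
                simp only [F, hy, hz, if_false] at h4 h5
                by_cases a1 : z < x
                · by_cases a2 : y < x <;> simp only [a1, a2, if_true, if_false] at h4 <;> omega
                · have a2 : ¬ y < x := fun h => a1 (e1 h)
                  simp only [a1, a2, if_false] at h4
                  omega
    exact KR_equiv (Equiv.sumComm Bool ι) (KR_pad ι h2)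

/-- The order of the new coordinate: the points not above `x`, then `x`, then the points above
`x`, each part in the order of a linear extension. -/
lemma exists_cut [Finite α] (x : α) : ∃ m : α → ℕ, Function.Injective m ∧
    (∀ y z, y ≠ x → z ≠ x → y < z → m y < m z) ∧ (∀ y, y ≠ x → (m x < m y ↔ x < y)) ∧
    (∀ y, y ≠ x → (m y < m x ↔ ¬ x < y)) := by
  classical
  obtain ⟨τ, hτ, hmono⟩ := exists_linext α
  obtain ⟨C, hC⟩ := exists_bound τ
  refine ⟨fun y => if y = x then C else if x < y then C + 1 + τ y else τ y, ?_, ?_, ?_, ?_⟩
  · intro y z hyz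
    have h1 := hC y
    have h2 := hC z
    by_contra hne
    have h3 : τ y ≠ τ z := fun h => hne (hτ h)
    dsimp only at hyz
    split_ifs at hyz <;> first | omega | (subst_vars; exact hne rfl)
  · intro y z hy hz h
    have h1 := hmono y z h
    have h2 := hC y
    have e2 : x < y → x < z := fun h' => h'.trans h
    dsimp only
    simp only [hy, hz, if_false]
    by_cases a1 : x < y
    · have a2 := e2 a1
      simp only [a1, a2, if_true]
      omega
    · by_cases a2 : x < z <;> simp only [a1, a2, if_true, if_false] <;> omega
  · intro y hy
    have h2 := hC y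
    dsimp only
    simp only [hy, if_false, if_true]
    by_cases a1 : x < y
    · simp only [a1, if_true, iff_true]
      omega
    · simp only [a1, if_false, iff_false]
      omega
  · intro y hy
    have h2 := hC y
    dsimp only
    simp only [hy, if_false, if_true]
    by_cases a1 : x < y
    · simp only [a1, if_true, not_true, iff_false]
      omega
    · simp only [a1, if_false, not_false_iff, iff_true]
      omega

lemma inj_extreme {α : Type*} {x : α} {f : α → ℕ} {B : ℕ} (c : Bool) (hB : ∀ y, f y < B)
    (hinj : ∀ y z, y ≠ x → z ≠ x → f y = f z → y = z) :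
    ∃ g : α → ℕ, Function.Injective g ∧
      (∀ y z, y ≠ x → z ≠ x → (g y < g z ↔ f y < f z)) ∧
      (∀ y, y ≠ x → (decide (g x < g y) = c ∧ decide (g y < g x) = !c)) := by
  classical
  refine ⟨fun y => if y = x then (if c = true then 0 else B + 1) else f y + 1, ?_, ?_, ?_⟩
  · intro y z hyz
    have h1 := hB y
    have h2 := hB z
    dsimp only at hyz
    by_cases hy : y = x <;> by_cases hz : z = x
    · rw [hy, hz]
    · cases c <;> simp only [hy, hz, if_true, if_false] at hyz <;> simp at hyz <;> omega
    · cases c <;> simp only [hy, hz, if_true, if_false] at hyz <;> simp at hyz <;> omega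
    · simp only [hy, hz, if_false] at hyz
      exact hinj y z hy hz (by omega)
  · intro y z hy hz
    simp only [hy, hz, if_false]
    omega
  · intro y hy
    have h1 := hB y
    cases c
    · simp [hy]
      omega
    · simp [hy]

/-- The point `x` is comparable to all others. -/
theorem KR_add_one_comparable [Finite α] (x : α) (hx : ∀ y, y ≤ x ∨ x ≤ y)
    (f : ι → α → ℕ) (φ : (ι → Bool) → Bool) (B : ι → ℕ) (hB : ∀ i y, f i y < B i)
    (hinj : ∀ i y z, y ≠ x → z ≠ x → f i y = f i z → y = z)
    (hφ : ∀ y z, y ≠ x → z ≠ x → y ≠ z → (y < z ↔ φ (fun i => decide (f i y < f i z)) = true))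
    (a : ι → Bool) (ha : φ a = true) : KR (Option ι) α := by
  classical
  choose g hg1 hg2 hg3 using fun i => inj_extreme (a i) (hB i) (hinj i)
  obtain ⟨m, hm1, hm2, hm3, hm4⟩ := exists_cut x
  refine ⟨fun k => Option.elim k m g, fun v => if (fun i => v (some i)) = a ∨
    (fun i => v (some i)) = (fun i => !a i) then v none else φ (fun i => v (some i)), ?_, ?_⟩
  · rintro (_ | i)
    · exact hm1
    · exact hg1 i
  · intro y z hyz
    show _ ↔ (if (fun i => decide (g i y < g i z)) = a ∨
      (fun i => decide (g i y < g i z)) = (fun i => !a i) then decide (m y < m z)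
      else φ (fun i => decide (g i y < g i z))) = true
    by_cases hy : y = x
    · subst hy
      have hz : z ≠ y := fun h => hyz h.symm
      have e1 : (fun i => decide (g i y < g i z)) = a := funext fun i => (hg3 i z hz).1
      rw [e1, if_pos (Or.inl rfl), decide_eq_true_eq, hm3 z hz]
    · by_cases hz : z = x
      · subst hz
        have e1 : (fun i => decide (g i y < g i z)) = fun i => !a i :=
          funext fun i => (hg3 i y hy).2
        rw [e1, if_pos (Or.inr rfl), decide_eq_true_eq, hm4 y hy]
        constructor
        · exact fun h h' => lt_asymm h h'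
        · intro h
          rcases hx y with h1 | h1
          · exact lt_of_le_of_ne h1 hy
          · exact absurd (lt_of_le_of_ne h1 (Ne.symm hy)) h
      · have e1 : (fun i => decide (g i y < g i z)) = fun i => decide (f i y < f i z) :=
          funext fun i => decide_eq_decide.mpr (hg2 i y z hy hz)
        have e2 : (fun i => decide (f i z < f i y)) = fun i => !decide (f i y < f i z) := by
          funext i
          have hne : f i y ≠ f i z := fun h => hyz (hinj i y z hy hz h)
          by_cases h3 : f i y < f i z
          · have h4 : ¬ f i z < f i y := by omega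
            simp [h3, h4]
          · have h4 : f i z < f i y := by omega
            simp [h3, h4]
        rw [e1]
        split_ifs with hc
        · rw [decide_eq_true_eq]
          rcases hc with hc | hc
          · have h1 : y < z := by rw [hφ y z hy hz hyz, hc]; exact ha
            exact iff_of_true h1 (hm2 y z hy hz h1)
          · have h1 : z < y := by
              rw [hφ z y hz hy (Ne.symm hyz), e2]
              have : (fun i => !decide (f i y < f i z)) = a := by
                funext i
                have := congrFun hc i
                rw [this]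
                simp
              rw [this]
              exact ha
            refine iff_of_false (fun h => lt_asymm h h1) (fun h => ?_)
            have := hm2 z y hz hy h1
            omega
        · exact hφ y z hy hz hyz

/-- The point `x` is minimal. -/
theorem KR_add_one_minimal [Finite α] [Nonempty ι] (x : α) (hx : ∀ y, ¬ y < x)
    (f : ι → α → ℕ) (φ : (ι → Bool) → Bool) (B : ι → ℕ) (hB : ∀ i y, f i y < B i)
    (hinj : ∀ i y z, y ≠ x → z ≠ x → f i y = f i z → y = z)
    (hφ : ∀ y z, y ≠ x → z ≠ x → y ≠ z → (y < z ↔ φ (fun i => decide (f i y < f i z)) = true))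
    (a : ι → Bool) (ha : φ a = true) : KR (Option ι) α := by
  classical
  choose g hg1 hg2 hg3 using fun i => inj_extreme (a i) (hB i) (hinj i)
  obtain ⟨m, hm1, hm2, hm3, hm4⟩ := exists_cut x
  have hna : (fun i => !a i) ≠ a := by
    intro h
    obtain ⟨i⟩ := ‹Nonempty ι›
    have := congrFun h i
    simp at this
  refine ⟨fun k => Option.elim k m g, fun v => if (fun i => v (some i)) = a then v none else
    if (fun i => v (some i)) = (fun i => !a i) then false else φ (fun i => v (some i)), ?_, ?_⟩
  · rintro (_ | i)
    · exact hm1
    · exact hg1 i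
  · intro y z hyz
    show _ ↔ (if (fun i => decide (g i y < g i z)) = a then decide (m y < m z) else
      if (fun i => decide (g i y < g i z)) = (fun i => !a i) then false
      else φ (fun i => decide (g i y < g i z))) = true
    by_cases hy : y = x
    · subst hy
      have hz : z ≠ y := fun h => hyz h.symm
      have e1 : (fun i => decide (g i y < g i z)) = a := funext fun i => (hg3 i z hz).1
      rw [e1, if_pos rfl, decide_eq_true_eq, hm3 z hz]
    · by_cases hz : z = x
      · subst hz
        have e1 : (fun i => decide (g i y < g i z)) = fun i => !a i :=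
          funext fun i => (hg3 i y hy).2
        rw [e1, if_neg hna, if_pos rfl]
        exact iff_of_false (hx y) (by simp)
      · have e1 : (fun i => decide (g i y < g i z)) = fun i => decide (f i y < f i z) :=
          funext fun i => decide_eq_decide.mpr (hg2 i y z hy hz)
        have e2 : (fun i => decide (f i z < f i y)) = fun i => !decide (f i y < f i z) := by
          funext i
          have hne : f i y ≠ f i z := fun h => hyz (hinj i y z hy hz h)
          by_cases h3 : f i y < f i z
          · have h4 : ¬ f i z < f i y := by omega
            simp [h3, h4]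
          · have h4 : f i z < f i y := by omega
            simp [h3, h4]
        rw [e1]
        split_ifs with hc hc'
        · rw [decide_eq_true_eq]
          have h1 : y < z := by rw [hφ y z hy hz hyz, hc]; exact ha
          exact iff_of_true h1 (hm2 y z hy hz h1)
        · have h1 : z < y := by
            rw [hφ z y hz hy (Ne.symm hyz), e2]
            have : (fun i => !decide (f i y < f i z)) = a := by
              funext i
              have := congrFun hc' i
              rw [this]
              simp
            rw [this]
            exact ha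
          exact iff_of_false (fun h => lt_asymm h h1) (by simp)
        · exact hφ y z hy hz hyz

/-- The set of the points below `x` has a greatest element `w`. -/
theorem KR_add_one_twin [Finite α] (x w : α) (hw : w < x) (hx : ∀ y, y < x → y ≤ w)
    (f : ι → α → ℕ) (φ : (ι → Bool) → Bool)
    (hinj : ∀ i y z, y ≠ x → z ≠ x → f i y = f i z → y = z)
    (hφ : ∀ y z, y ≠ x → z ≠ x → y ≠ z → (y < z ↔ φ (fun i => decide (f i y < f i z)) = true))
    (a : ι → Bool) (ha : φ a = true) : KR (Option ι) α := by
  classical
  obtain ⟨m, hm1, hm2, hm3, hm4⟩ := exists_cut x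
  have hwx : w ≠ x := hw.ne
  let g : ι → α → ℕ := fun i y => if y = x then (if a i = true then 3 * f i w + 2 else 3 * f i w)
    else 3 * f i y + 1
  have hgx : ∀ i, g i x = (if a i = true then 3 * f i w + 2 else 3 * f i w) := by
    intro i; simp [g]
  have hgy : ∀ i y, y ≠ x → g i y = 3 * f i y + 1 := by
    intro i y hy; simp [g, hy]
  have hg1 : ∀ i, Function.Injective (g i) := by
    intro i y z hyz
    by_cases hy : y = x <;> by_cases hz : z = x
    · rw [hy, hz]
    · rw [hy, hgx, hgy i z hz] at hyz
      split_ifs at hyz <;> omega
    · rw [hz, hgx, hgy i y hy] at hyz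
      split_ifs at hyz <;> omega
    · rw [hgy i y hy, hgy i z hz] at hyz
      exact hinj i y z hy hz (by omega)
  have hg2 : ∀ y z, y ≠ x → z ≠ x → (fun i => decide (g i y < g i z)) =
      fun i => decide (f i y < f i z) := by
    intro y z hy hz
    funext i
    rw [hgy i y hy, hgy i z hz]
    exact decide_eq_decide.mpr (by omega)
  have hgxz : ∀ z, z ≠ x → z ≠ w → (fun i => decide (g i x < g i z)) =
      fun i => decide (f i w < f i z) := by
    intro z hz hzw
    funext i
    have hne : f i w ≠ f i z := fun h => hzw (hinj i w z hwx hz h).symm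
    rw [hgx, hgy i z hz]
    apply decide_eq_decide.mpr
    split_ifs <;> omega
  have hgzx : ∀ z, z ≠ x → z ≠ w → (fun i => decide (g i z < g i x)) =
      fun i => decide (f i z < f i w) := by
    intro z hz hzw
    funext i
    have hne : f i w ≠ f i z := fun h => hzw (hinj i w z hwx hz h).symm
    rw [hgx, hgy i z hz]
    apply decide_eq_decide.mpr
    split_ifs <;> omega
  have hgwx : (fun i => decide (g i w < g i x)) = a := by
    funext i
    rw [hgx, hgy i w hwx]
    cases hai : a i
    · simp
    · simp
  refine ⟨fun k => Option.elim k m g, fun v => φ (fun i => v (some i)) && v none, ?_, ?_⟩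
  · rintro (_ | i)
    · exact hm1
    · exact hg1 i
  · intro y z hyz
    show _ ↔ (φ (fun i => decide (g i y < g i z)) && decide (m y < m z)) = true
    rw [Bool.and_eq_true, decide_eq_true_eq]
    by_cases hy : y = x
    · subst hy
      have hz : z ≠ y := fun h => hyz h.symm
      rw [hm3 z hz]
      constructor
      · intro h
        refine ⟨?_, h⟩
        have hzw : z ≠ w := by
          rintro rfl
          exact lt_asymm hw h
        rw [hgxz z hz hzw, ← hφ w z hwx hz (Ne.symm hzw)]
        exact hw.trans h
      · exact fun h => h.2
    · by_cases hz : z = x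
      · subst hz
        rw [hm4 y hy]
        by_cases hyw : y = w
        · subst hyw
          rw [hgwx]
          exact iff_of_true hw ⟨ha, fun h => lt_asymm h hw⟩
        · rw [hgzx y hy hyw, ← hφ y w hy hwx hyw]
          constructor
          · intro h
            exact ⟨lt_of_le_of_ne (hx y h) hyw, fun h' => lt_asymm h h'⟩
          · exact fun h => h.1.trans hw
      · rw [hg2 y z hy hz, ← hφ y z hy hz hyz]
        exact ⟨fun h => ⟨h, hm2 y z hy hz h⟩, fun h => h.1⟩

/-- The case where `x` is the only point which can be below another point: all pairs of other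
points are incomparable and `x` is minimal. -/
theorem KR_star [Finite α] (x : α) (hx : ∀ y, ¬ y < x)
    (hanti : ∀ y z, y ≠ x → z ≠ x → ¬ y < z) : KR Bool α := by
  classical
  obtain ⟨σ, hσ⟩ := exists_inj α
  obtain ⟨C, hC⟩ := exists_bound σ
  let F : Bool → α → ℕ := fun k y =>
    match k with
    | false => if y = x then C else if x < y then C + 1 + σ y else σ y
    | true => if y = x then 0 else if x < y then C - σ y else 2 * C - σ y
  refine ⟨F, fun v => v false && v true, ?_, ?_⟩
  · intro k y z hyz
    have h1 := hC y
    have h2 := hC z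
    by_contra hne
    have h3 : σ y ≠ σ z := fun h => hne (hσ h)
    cases k <;> simp only [F] at hyz <;> split_ifs at hyz <;>
      first | omega | (subst_vars; exact hne rfl)
  · intro y z hyz
    have h1 := hC y
    have h2 := hC z
    have h3 : σ y ≠ σ z := fun h => hyz (hσ h)
    simp only [Bool.and_eq_true, decide_eq_true_eq]
    by_cases hy : y = x
    · subst hy
      have hz : z ≠ y := fun h => hyz h.symm
      by_cases h4 : y < z
      · simp only [F, hz, h4, if_true, if_false, true_iff]
        omega
      · simp only [F, hz, h4, if_true, if_false, false_iff]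
        omega
    · by_cases hz : z = x
      · subst hz
        refine iff_of_false (hx y) ?_
        simp only [F, hy, if_true, if_false]
        omega
      · refine iff_of_false (hanti y z hy hz) ?_
        simp only [F, hy, hz, if_false]
        split_ifs <;> omega

/-- One more linear order suffices if the points below `x` are none or have a greatest element. -/
theorem KR_add_one_down [Finite α] [Nonempty ι] (x : α)
    (hx : (∀ y, ¬ y < x) ∨ ∃ w, w < x ∧ ∀ y, y < x → y ≤ w)
    (h : KR ι {y : α // y ≠ x}) : KR (Option ι) α := by
  classical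
  obtain ⟨f, φ, B, hB, hinj, hφ⟩ := KR_extend x h
  by_cases hdir : ∃ a, φ a = true
  · obtain ⟨a, ha⟩ := hdir
    rcases hx with hx | ⟨w, hw, hx⟩
    · exact KR_add_one_minimal x hx f φ B hB hinj hφ a ha
    · exact KR_add_one_twin x w hw hx f φ hinj hφ a ha
  · have hanti : ∀ y z, y ≠ x → z ≠ x → ¬ y < z := by
      intro y z hy hz hyz
      exact hdir ⟨_, (hφ y z hy hz hyz.ne).1 hyz⟩
    obtain ⟨i₀⟩ := ‹Nonempty ι›
    -- the other points form an antichain
    have hstar : KR Bool α := by
      by_cases hmin : ∀ y, ¬ y < x
      · exact KR_star x hmin hanti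
      · push Not at hmin
        obtain ⟨w, hw⟩ := hmin
        have hmax : ∀ y, ¬ x < y := fun y hy =>
          hanti w y hw.ne hy.ne' (hw.trans hy)
        have h1 : KR Bool αᵒᵈ := by
          refine KR_star (OrderDual.toDual x) (fun y hy => hmax (OrderDual.ofDual y) hy) ?_
          intro y z hy hz hyz
          exact hanti (OrderDual.ofDual z) (OrderDual.ofDual y) (fun h => hz (by rw [← h]; rfl))
            (fun h => hy (by rw [← h]; rfl)) hyz
        exact KR_rev (β := αᵒᵈ) OrderDual.toDual OrderDual.toDual.injective
          (fun a b => OrderDual.toDual_lt_toDual.symm) h1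
    refine KR_inj (fun b : Bool => if b = true then some i₀ else none) ?_ hstar
    intro b c hbc
    cases b <;> cases c <;> simp_all

/-- The order-dual copy of a poset without a point. -/
lemma KR_dual {x : α} (h : KR ι {y : α // y ≠ x}) :
    KR ι {y : αᵒᵈ // y ≠ OrderDual.toDual x} :=
  KR_rev (β := {y : α // y ≠ x})
    (fun y => ⟨OrderDual.ofDual y.1, fun h => y.2 (congrArg OrderDual.toDual h)⟩)
    (fun y z hyz => Subtype.ext (congrArg (fun t => OrderDual.toDual (Subtype.val t)) hyz))
    (fun _ _ => Iff.rfl) h

theorem KR_add_one_up [Finite α] [Nonempty ι] (x : α)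
    (hx : (∀ y, ¬ x < y) ∨ ∃ w, x < w ∧ ∀ y, x < y → w ≤ y)
    (h : KR ι {y : α // y ≠ x}) : KR (Option ι) α := by
  have h1 : KR (Option ι) αᵒᵈ := by
    refine KR_add_one_down (OrderDual.toDual x) ?_ (KR_dual h)
    rcases hx with hx | ⟨w, hw, hx⟩
    · exact Or.inl fun y hy => hx (OrderDual.ofDual y) hy
    · exact Or.inr ⟨OrderDual.toDual w, hw, fun y hy => hx (OrderDual.ofDual y) hy⟩
  exact KR_rev (β := αᵒᵈ) OrderDual.toDual OrderDual.toDual.injective
    (fun a b => OrderDual.toDual_lt_toDual.symm) h1

/-- In a finite poset a point with at most one lower cover is minimal or the points below it have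
a greatest element. -/
lemma down_of_cover [Finite α] (x : α) (hx : ∀ a b, a ⋖ x → b ⋖ x → a = b) :
    (∀ y, ¬ y < x) ∨ ∃ w, w < x ∧ ∀ y, y < x → y ≤ w := by
  by_cases hmin : ∀ y, ¬ y < x
  · exact Or.inl hmin
  · right
    push Not at hmin
    obtain ⟨y₀, hy₀⟩ := hmin
    have hex : ∀ y, y < x → ∃ w, y ≤ w ∧ w ⋖ x := by
      intro y hy
      obtain ⟨w, hyw, hw⟩ := (Set.toFinite {w | w < x}).exists_le_maximal hy
      refine ⟨w, hyw, hw.prop, ?_⟩
      intro c hwc hcx
      exact absurd (hw.le_of_ge hcx hwc.le) (not_le_of_gt hwc)
    obtain ⟨w, -, hw⟩ := hex y₀ hy₀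
    refine ⟨w, hw.lt, ?_⟩
    intro y hy
    obtain ⟨w', hyw', hw'⟩ := hex y hy
    rw [hx w w' hw hw']
    exact hyw'

lemma up_of_cover [Finite α] (x : α) (hx : ∀ a b, x ⋖ a → x ⋖ b → a = b) :
    (∀ y, ¬ x < y) ∨ ∃ w, x < w ∧ ∀ y, x < y → w ≤ y := by
  have h := down_of_cover (α := αᵒᵈ) (OrderDual.toDual x) (by
    intro a b ha hb
    have := hx (OrderDual.ofDual a) (OrderDual.ofDual b)
      ha.ofDual hb.ofDual
    exact congrArg OrderDual.toDual this)
  rcases h with h | ⟨w, hw, h⟩
  · exact Or.inl fun y hy => h (OrderDual.toDual y) hy
  · exact Or.inr ⟨OrderDual.ofDual w, hw, fun y hy => h (OrderDual.toDual y) hy⟩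

/-- One more linear order suffices if `x` has at most one lower cover or at most one upper cover
or is comparable to all points. -/
theorem hasRealizer_add_one [Finite α] (x : α) {d : ℕ} (hd : 1 ≤ d)
    (hx : (∀ a b, a ⋖ x → b ⋖ x → a = b) ∨ (∀ a b, x ⋖ a → x ⋖ b → a = b) ∨
      (∀ y, y ≤ x ∨ x ≤ y))
    (h : HasRealizer {y : α // y ≠ x} d) : HasRealizer α (d + 1) := by
  have h' : KR (Fin d) {y : α // y ≠ x} := KR_of_hasRealizer h
  have : Nonempty (Fin d) := ⟨⟨0, hd⟩⟩
  have key : KR (Option (Fin d)) α := by
    rcases hx with hx | hx | hx
    · exact KR_add_one_down x (down_of_cover x hx) h'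
    · exact KR_add_one_up x (up_of_cover x hx) h'
    · obtain ⟨f, φ, B, hB, hinj, hφ⟩ := KR_extend x h'
      by_cases hdir : ∃ a, φ a = true
      · obtain ⟨a, ha⟩ := hdir
        exact KR_add_one_comparable x hx f φ B hB hinj hφ a ha
      · have hanti : ∀ y z, y ≠ x → z ≠ x → ¬ y < z := by
          intro y z hy hz hyz
          exact hdir ⟨_, (hφ y z hy hz hyz.ne).1 hyz⟩
        by_cases hmin : ∀ y, ¬ y < x
        · exact KR_add_one_down x (Or.inl hmin) h'
        · push Not at hmin
          obtain ⟨w, hw⟩ := hmin
          exact KR_add_one_up x (Or.inl fun y hy => hanti w y hw.ne hy.ne' (hw.trans hy)) h'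
  exact hasRealizer_of_KR (KR_equiv
    (Fintype.equivFinOfCardEq (by simp) : Option (Fin d) ≃ Fin (d + 1)) key)

/-- Two more linear orders always suffice. -/
theorem hasRealizer_add_two [Finite α] (x : α) {d : ℕ}
    (h : HasRealizer {y : α // y ≠ x} d) : HasRealizer α (d + 2) :=
  hasRealizer_of_KR (KR_equiv
    (Fintype.equivFinOfCardEq (by simp) : Fin d ⊕ Bool ≃ Fin (d + 2))
    (KR_add_two x (KR_of_hasRealizer h)))

theorem hasRealizer_mono [Finite α] {d e : ℕ} (hde : d ≤ e) (h : HasRealizer α d) :
    HasRealizer α e :=
  hasRealizer_of_KR (KR_inj (Fin.castLE hde) (Fin.castLE_injective hde) (KR_of_hasRealizer h))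

theorem exists_realizer (n : ℕ) : ∀ (β : Type) [Finite β] [PartialOrder β], Nat.card β = n →
    ∃ d, HasRealizer β d := by
  induction n with
  | zero =>
    intro β _ _ hβ
    have : IsEmpty β := by
      rcases Nat.card_eq_zero.1 hβ with h | h
      · exact h
      · exact absurd ‹Finite β› (not_finite_iff_infinite.2 h)
    exact ⟨0, fun i => i.elim0, fun _ => false, fun x => isEmptyElim x⟩
  | succ n ih =>
    intro β _ _ hβ
    have : Nonempty β := by
      by_contra hne
      rw [not_nonempty_iff] at hne
      rw [Nat.card_of_isEmpty] at hβ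
      omega
    obtain ⟨x⟩ := this
    classical
    have := Fintype.ofFinite β
    have hcard : Nat.card {y : β // y ≠ x} = n := by
      rw [Nat.card_eq_fintype_card] at hβ ⊢
      have := Fintype.card_subtype_compl (fun y : β => y = x)
      rw [Fintype.card_subtype_eq] at this
      rw [this, hβ]
      rfl
    obtain ⟨d, hd⟩ := ih {y : β // y ≠ x} hcard
    exact ⟨d + 2, hasRealizer_add_two x hd⟩

theorem bdim_spec (β : Type) [Finite β] [PartialOrder β] :
    IsLeast {d | HasRealizer β d} (bdim β) := by
  obtain ⟨d, hd⟩ := exists_realizer _ β rfl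
  exact ⟨Nat.sInf_mem ⟨d, hd⟩, fun e he => Nat.sInf_le he⟩

theorem bdimPos_spec (β : Type) [Finite β] [PartialOrder β] :
    IsLeast {d | 1 ≤ d ∧ HasRealizer β d} (bdimPos β) := by
  obtain ⟨d, hd⟩ := exists_realizer _ β rfl
  exact ⟨Nat.sInf_mem ⟨d + 1, by omega, hasRealizer_mono (by omega) hd⟩,
    fun e he => Nat.sInf_le he⟩

theorem bdim_le_add_two {β : Type} [Finite β] [PartialOrder β] (x : β) :
    bdim β ≤ bdim {y : β // y ≠ x} + 2 :=
  (bdim_spec β).2 (hasRealizer_add_two x (bdim_spec {y : β // y ≠ x}).1)

theorem bdimPos_le_add_two {β : Type} [Finite β] [PartialOrder β] (x : β) :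
    bdimPos β ≤ bdimPos {y : β // y ≠ x} + 2 :=
  (bdimPos_spec β).2 ⟨by omega, hasRealizer_add_two x (bdimPos_spec {y : β // y ≠ x}).1.2⟩

theorem bdimPos_le_add_one {β : Type} [Finite β] [PartialOrder β] (x : β)
    (hx : (∀ a b, a ⋖ x → b ⋖ x → a = b) ∨ (∀ a b, x ⋖ a → x ⋖ b → a = b) ∨
      (∀ y, y ≤ x ∨ x ≤ y)) :
    bdimPos β ≤ bdimPos {y : β // y ≠ x} + 1 :=
  (bdimPos_spec β).2 ⟨by omega, hasRealizer_add_one x (bdimPos_spec {y : β // y ≠ x}).1.1 hx
    (bdimPos_spec {y : β // y ≠ x}).1.2⟩

/-- The example: a chain with two points and one further point. -/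
abbrev Ex : Type := Bool ⊕ Unit

lemma ex_lt : (Sum.inl false : Ex) < Sum.inl true := by
  rw [Sum.inl_lt_inl_iff]
  exact Bool.false_lt_true

lemma ex_anti (y z : {y : Ex // y ≠ Sum.inl false}) : ¬ y < z := by
  obtain ⟨y, hy⟩ := y
  obtain ⟨z, hz⟩ := z
  rw [Subtype.mk_lt_mk]
  rcases y with y | y <;> rcases z with z | z
  · cases y
    · exact absurd rfl hy
    · cases z
      · exact absurd rfl hz
      · exact lt_irrefl _
  · exact Sum.not_inl_lt_inr
  · exact Sum.not_inr_lt_inl
  · exact lt_irrefl _

lemma ex_real (d : ℕ) : HasRealizer {y : Ex // y ≠ Sum.inl false} d := by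
  refine hasRealizer_mono (Nat.zero_le d) ⟨fun i => i.elim0, fun _ => false, ?_⟩
  intro y z _
  exact iff_of_false (ex_anti y z) (by simp)

lemma ex_not_zero : ¬ HasRealizer Ex 0 := by
  rintro ⟨L, φ, h⟩
  have h1 := (h (Sum.inl false) (Sum.inl true) (by simp)).1 ex_lt
  have h2 : ¬ (Sum.inl true : Ex) < Sum.inl false := fun h => lt_asymm h ex_lt
  rw [h (Sum.inl true) (Sum.inl false) (by simp)] at h2
  apply h2
  rw [← h1]
  congr 1
  exact Subsingleton.elim _ _

lemma ex_not_one : ¬ HasRealizer Ex 1 := by
  intro hr
  obtain ⟨f, φ, hf, h⟩ := KR_of_hasRealizer hr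
  have h1 := (h (Sum.inl false) (Sum.inl true) (by simp)).1 ex_lt
  have h2 : ¬ (Sum.inl false : Ex) < Sum.inr () := Sum.not_inl_lt_inr
  have h3 : ¬ (Sum.inr () : Ex) < Sum.inl false := Sum.not_inr_lt_inl
  rw [h _ _ (by simp)] at h2 h3
  have e : ∀ i : Fin 1, i = 0 := fun i => Subsingleton.elim _ _
  have hne : f 0 (Sum.inl false) ≠ f 0 (Sum.inr ()) := fun h => by simpa using hf 0 h
  by_cases c : f 0 (Sum.inl false) < f 0 (Sum.inl true)
  · have e1 : (fun i : Fin 1 => decide (f i (Sum.inl false) < f i (Sum.inl true))) =
        fun _ => true := by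
      funext i; rw [e i]; simpa using c
    rw [e1] at h1
    by_cases c' : f 0 (Sum.inl false) < f 0 (Sum.inr ())
    · apply h2
      rw [← h1]
      congr 1
      funext i; rw [e i]; simpa using c'
    · apply h3
      rw [← h1]
      congr 1
      funext i; rw [e i]
      have : f 0 (Sum.inr ()) < f 0 (Sum.inl false) := by omega
      simpa using this
  · have e1 : (fun i : Fin 1 => decide (f i (Sum.inl false) < f i (Sum.inl true))) =
        fun _ => false := by
      funext i; rw [e i]; simpa using c
    rw [e1] at h1
    by_cases c' : f 0 (Sum.inl false) < f 0 (Sum.inr ())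
    · apply h3
      rw [← h1]
      congr 1
      funext i; rw [e i]
      have : ¬ f 0 (Sum.inr ()) < f 0 (Sum.inl false) := by omega
      simpa using this
    · apply h2
      rw [← h1]
      congr 1
      funext i; rw [e i]; simpa using c'

lemma ex_two : HasRealizer Ex 2 := hasRealizer_add_two (Sum.inl false) (ex_real 0)

lemma ex_bdim : bdim Ex = 2 := by
  refine le_antisymm ((bdim_spec Ex).2 ex_two) ?_
  by_contra hlt
  have h : bdim Ex = 0 ∨ bdim Ex = 1 := by omega
  have hs := (bdim_spec Ex).1
  rcases h with h | h
  · rw [h] at hs
    exact ex_not_zero hs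
  · rw [h] at hs
    exact ex_not_one hs

lemma ex_bdimPos : bdimPos Ex = 2 := by
  refine le_antisymm ((bdimPos_spec Ex).2 ⟨by omega, ex_two⟩) ?_
  by_contra hlt
  have hs := (bdimPos_spec Ex).1
  have h1 : 1 ≤ bdimPos Ex := hs.1
  have h : bdimPos Ex = 1 := by omega
  rw [h] at hs
  exact ex_not_one hs.2

lemma ex_bdim_sub : bdim {y : Ex // y ≠ Sum.inl false} = 0 :=
  Nat.le_zero.1 ((bdim_spec _).2 (ex_real 0))

lemma ex_bdimPos_sub : bdimPos {y : Ex // y ≠ Sum.inl false} = 1 :=
  le_antisymm ((bdimPos_spec _).2 ⟨le_rfl, ex_real 1⟩) (bdimPos_spec _).1.1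

end Pool.Agent.Q108.BDim
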