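import Mathlib

set_option autoImplicit false

/-!
CIS graphs `Γ` with `α(Γ) ω(Γ) < |V(Γ)|`.
-/

namespace Q108.CIS

open Finset

section construction

variable (a b : ℕ)

/-- The vertices: `(i, x, y)` is the vertex `y` of the `x`-th copy of `K_b` in block `i`, the
blocks are arranged in a cyclic order of length five; `inr i` is a vertex joined to the blocks
`i` and `i + 1`. -/
abbrev Vx : Type := (ZMod 5 × Fin a × Fin b) ⊕ ZMod 5

/-- adjacency -/
def adj : Vx a b → Vx a b → Prop
  | .inl (i, x, y), .inl (j, x', y') => (i = j ∧ x = x' ∧ y ≠ y') ∨ j = i + 1 ∨ i = j + 1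
  | .inl (i, _, _), .inr j => i = j ∨ i = j + 1
  | .inr j, .inl (i, _, _) => i = j ∨ i = j + 1
  | .inr _, .inr _ => False

/-- the graph -/
def Gam : SimpleGraph (Vx a b) where
  Adj := adj a b
  symm := ⟨by
    rintro (⟨i, x, y⟩ | i) (⟨j, x', y'⟩ | j) h
    · rcases h with ⟨h1, h2, h3⟩ | h | h
      · exact Or.inl ⟨h1.symm, h2.symm, h3.symm⟩
      · exact Or.inr (Or.inr h)
      · exact Or.inr (Or.inl h)
    · exact h
    · exact h
    · exact h⟩
  loopless := ⟨by
    rintro (⟨i, x, y⟩ | i) h
    · rcases h with ⟨_, _, h3⟩ | h | h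
      · exact h3 rfl
      · revert h; revert i; decide
      · revert h; revert i; decide
    · exact h⟩

variable {a b}

lemma adj_ll {i j : ZMod 5} {x x' : Fin a} {y y' : Fin b} :
    (Gam a b).Adj (.inl (i, x, y)) (.inl (j, x', y')) ↔
      (i = j ∧ x = x' ∧ y ≠ y') ∨ j = i + 1 ∨ i = j + 1 := Iff.rfl

lemma adj_lr {i j : ZMod 5} {x : Fin a} {y : Fin b} :
    (Gam a b).Adj (.inl (i, x, y)) (.inr j) ↔ i = j ∨ i = j + 1 := Iff.rfl

lemma adj_rl {i j : ZMod 5} {x : Fin a} {y : Fin b} :
    (Gam a b).Adj (.inr j) (.inl (i, x, y)) ↔ i = j ∨ i = j + 1 := Iff.rfl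

lemma adj_rr {i j : ZMod 5} : ¬ (Gam a b).Adj (.inr i) (.inr j) := fun h => h

lemma z5 : ∀ i j : ZMod 5, (j = i ∨ j = i + 1 ∨ i = j + 1) ∨ (j = i + 2 ∨ i = j + 2) := by decide

lemma z5' : ∀ i : ZMod 5, ¬ (i = i + 1) := by decide

/-- Every clique lies in the closed neighbourhood of some `inr i`. -/
lemma clique_sub (C : Set (Vx a b)) (hC : (Gam a b).IsClique C) :
    ∃ i : ZMod 5, ∀ v ∈ C, v = .inr i ∨ (Gam a b).Adj (.inr i) v := by
  classical
  by_cases h1 : ∃ i : ZMod 5, (.inr i : Vx a b) ∈ C
  · obtain ⟨i, hi⟩ := h1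
    refine ⟨i, fun v hv => ?_⟩
    by_cases hvi : v = .inr i
    · exact Or.inl hvi
    · exact Or.inr (hC hi hv (Ne.symm hvi))
  · push Not at h1
    by_cases h2 : ∃ i x y, (.inl (i, x, y) : Vx a b) ∈ C
    · obtain ⟨i, x, y, hi⟩ := h2
      have key : ∀ j x' y', (.inl (j, x', y') : Vx a b) ∈ C → j = i ∨ j = i + 1 ∨ i = j + 1 := by
        intro j x' y' hj
        by_cases he : (.inl (i, x, y) : Vx a b) = .inl (j, x', y')
        · simp only [Sum.inl.injEq, Prod.mk.injEq] at he
          exact Or.inl he.1.symm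
        · rcases adj_ll.1 (hC hi hj he) with ⟨h, _⟩ | h | h
          · exact Or.inl h.symm
          · exact Or.inr (Or.inl h)
          · exact Or.inr (Or.inr h)
      by_cases h3 : ∃ x' y', (.inl (i + 1, x', y') : Vx a b) ∈ C
      · obtain ⟨x', y', h3⟩ := h3
        refine ⟨i, ?_⟩
        rintro (⟨j, x'', y''⟩ | j) hv
        · right
          rw [adj_rl]
          rcases key j _ _ hv with h | h | h
          · exact Or.inl h
          · exact Or.inr h
          · exfalso
            subst h
            have hne : (.inl (j, x'', y'') : Vx a b) ≠ .inl (j + 1 + 1, x', y') := by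
              intro he
              simp only [Sum.inl.injEq, Prod.mk.injEq] at he
              have h7 := he.1
              clear he hv h3 key hi
              revert h7; revert j; decide
            have := adj_ll.1 (hC hv h3 hne)
            have h5 : ¬ (j = j + 1 + 1 ∨ j + 1 + 1 = j + 1 ∨ j = j + 1 + 1 + 1) := by
              clear hv h3 hne this key hi h1
              revert j; decide
            exact h5 (by tauto)
        · exact absurd hv (h1 j)
      · refine ⟨i - 1, ?_⟩
        rintro (⟨j, x'', y''⟩ | j) hv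
        · right
          rw [adj_rl, sub_add_cancel]
          rcases key j _ _ hv with h | h | h
          · exact Or.inr h
          · exact absurd ⟨x'', y'', h ▸ hv⟩ h3
          · exact Or.inl (eq_sub_of_add_eq h.symm)
        · exact absurd hv (h1 j)
    · refine ⟨0, ?_⟩
      rintro (⟨j, x'', y''⟩ | j) hv
      · exact absurd ⟨j, x'', y'', hv⟩ h2
      · exact absurd hv (h1 j)

/-- Half of the argument: a stable set which is maximal and meets block `j` meets every clique
which is maximal and contains a vertex joined to the whole block `j`. -/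
lemma meet_block (ha : 0 < a) (hb : 0 < b) (C S : Set (Vx a b))
    (hC : Maximal (fun X : Set (Vx a b) => (Gam a b).IsClique X) C)
    (hS : Maximal (fun X : Set (Vx a b) => (Gam a b).IsIndepSet X) S)
    (i j k : ZMod 5) (hijk : (j = i ∧ k = i + 1) ∨ (j = i + 1 ∧ k = i))
    (hi : ∀ v ∈ C, v = .inr i ∨ (Gam a b).Adj (.inr i) v)
    (x : Fin a) (y : Fin b) (hxy : (.inl (j, x, y) : Vx a b) ∈ S) : (C ∩ S).Nonempty := by
  -- every vertex of block j or of a clique of block j outside S has a neighbour in its own clique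
  have hjk : j = k + 1 ∨ k = j + 1 := by
    rcases hijk with ⟨rfl, rfl⟩ | ⟨rfl, rfl⟩
    · exact Or.inr rfl
    · exact Or.inl rfl
  have hS' : ∀ x' : Fin a, ∃ y' : Fin b, (.inl (j, x', y') : Vx a b) ∈ S := by
    intro x'
    by_contra hcon
    push Not at hcon
    set v : Vx a b := .inl (j, x', ⟨0, hb⟩) with hv
    have hind : (Gam a b).IsIndepSet (insert v S) := by
      have hvw : ∀ w ∈ S, ¬ (Gam a b).Adj v w := by
        rintro (⟨l, x'', y''⟩ | l) hw hadj
        · rcases adj_ll.1 hadj with ⟨h1, h2, _⟩ | h | h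
          · subst h1 h2
            exact hcon _ hw
          · have hne : (.inl (j, x, y) : Vx a b) ≠ .inl (l, x'', y'') := by
              intro he
              simp only [Sum.inl.injEq, Prod.mk.injEq] at he
              rw [← he.1] at h
              clear hS hC hi hxy hcon hv hw hadj hjk hijk he
              revert h; revert j; decide
            exact hS.1 hxy hw hne (adj_ll.2 (Or.inr (Or.inl h)))
          · have hne : (.inl (j, x, y) : Vx a b) ≠ .inl (l, x'', y'') := by
              intro he
              simp only [Sum.inl.injEq, Prod.mk.injEq] at he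
              rw [← he.1] at h
              clear hS hC hi hxy hcon hv hw hadj hjk hijk he
              revert h; revert j; decide
            exact hS.1 hxy hw hne (adj_ll.2 (Or.inr (Or.inr h)))
        · exact hS.1 hxy hw (by simp) (adj_lr.2 (adj_lr.1 hadj))
      intro p hp q hq hpq
      rcases hp with rfl | hp
      · rcases hq with rfl | hq
        · exact absurd rfl hpq
        · exact hvw q hq
      · rcases hq with rfl | hq
        · exact fun h => hvw p hp h.symm
        · exact hS.1 hp hq hpq
    have h1 : insert v S ⊆ S := hS.2 hind (Set.subset_insert _ _)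
    exact hcon _ (h1 (Set.mem_insert _ _))
  -- C meets block j
  have hCj : ∃ x' y', (.inl (j, x', y') : Vx a b) ∈ C := by
    by_contra hcon
    push Not at hcon
    set v : Vx a b := .inl (j, ⟨0, ha⟩, ⟨0, hb⟩) with hv
    have hcl : (Gam a b).IsClique (insert v C) := by
      have hvw : ∀ w ∈ C, v ≠ w → (Gam a b).Adj v w := by
        rintro (⟨l, x'', y''⟩ | l) hw hne
        · have h2 : l = i ∨ l = i + 1 := by
            rcases hi _ hw with h | h
            · simp at h
            · exact adj_rl.1 h
          have hlj : l ≠ j := by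
            rintro rfl
            exact hcon _ _ hw
          have hlk : l = k := by
            rcases hijk with ⟨rfl, rfl⟩ | ⟨rfl, rfl⟩
            · exact h2.resolve_left hlj
            · exact h2.resolve_right hlj
          subst hlk
          rw [hv, adj_ll]
          rcases hjk with h | h
          · exact Or.inr (Or.inr h)
          · exact Or.inr (Or.inl h)
        · have h2 : l = i := by
            rcases hi _ hw with h | h
            · exact Sum.inr.inj h
            · exact absurd h adj_rr
          subst h2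
          rw [hv, adj_lr]
          rcases hijk with ⟨rfl, _⟩ | ⟨rfl, _⟩
          · exact Or.inl rfl
          · exact Or.inr rfl
      intro p hp q hq hpq
      rcases hp with rfl | hp
      · rcases hq with rfl | hq
        · exact absurd rfl hpq
        · exact hvw q hq hpq
      · rcases hq with rfl | hq
        · exact (hvw p hp (Ne.symm hpq)).symm
        · exact hC.1 hp hq hpq
    have h1 : insert v C ⊆ C := hC.2 hcl (Set.subset_insert _ _)
    exact hcon _ _ (h1 (Set.mem_insert _ _))
  obtain ⟨x', y', hxy'⟩ := hCj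
  obtain ⟨y'', hy''⟩ := hS' x'
  refine ⟨.inl (j, x', y''), ?_, hy''⟩
  -- C contains the whole clique `(j, x', ·)`
  set v : Vx a b := .inl (j, x', y'') with hv
  have hcl : (Gam a b).IsClique (insert v C) := by
    have hvw : ∀ w ∈ C, v ≠ w → (Gam a b).Adj v w := by
      rintro (⟨l, z, t⟩ | l) hw hne
      · by_cases he : (.inl (j, x', y') : Vx a b) = .inl (l, z, t)
        · simp only [Sum.inl.injEq, Prod.mk.injEq] at he
          obtain ⟨rfl, rfl, rfl⟩ := he
          rw [hv, adj_ll]
          refine Or.inl ⟨rfl, rfl, ?_⟩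
          rintro rfl
          exact hne rfl
        · rcases adj_ll.1 (hC.1 hxy' hw he) with ⟨rfl, rfl, h3⟩ | h | h
          · rw [hv, adj_ll]
            refine Or.inl ⟨rfl, rfl, ?_⟩
            rintro rfl
            exact hne rfl
          · exact adj_ll.2 (Or.inr (Or.inl h))
          · exact adj_ll.2 (Or.inr (Or.inr h))
      · exact adj_lr.2 (adj_lr.1 (hC.1 hxy' hw (by simp)))
    intro p hp q hq hpq
    rcases hp with rfl | hp
    · rcases hq with rfl | hq
      · exact absurd rfl hpq
      · exact hvw q hq hpq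
    · rcases hq with rfl | hq
      · exact (hvw p hp (Ne.symm hpq)).symm
      · exact hC.1 hp hq hpq
  exact hC.2 hcl (Set.subset_insert _ _) (Set.mem_insert _ _)

theorem isCIS (ha : 0 < a) (hb : 0 < b) : ∀ C S : Set (Vx a b),
    Maximal (fun X : Set (Vx a b) => (Gam a b).IsClique X) C →
    Maximal (fun X : Set (Vx a b) => (Gam a b).IsIndepSet X) S → (C ∩ S).Nonempty := by
  intro C S hC hS
  obtain ⟨i, hi⟩ := clique_sub C hC.1
  have hCi : (.inr i : Vx a b) ∈ C := by
    have hcl : (Gam a b).IsClique (insert (.inr i : Vx a b) C) := by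
      intro p hp q hq hpq
      rcases hp with rfl | hp
      · rcases hq with rfl | hq
        · exact absurd rfl hpq
        · exact (hi q hq).resolve_left (Ne.symm hpq)
      · rcases hq with rfl | hq
        · exact ((hi p hp).resolve_left hpq).symm
        · exact hC.1 hp hq hpq
    exact hC.2 hcl (Set.subset_insert _ _) (Set.mem_insert _ _)
  by_cases h1 : ∃ x y, (.inl (i, x, y) : Vx a b) ∈ S
  · obtain ⟨x, y, h⟩ := h1
    exact meet_block ha hb C S hC hS i i (i + 1) (Or.inl ⟨rfl, rfl⟩) hi x y h
  by_cases h2 : ∃ x y, (.inl (i + 1, x, y) : Vx a b) ∈ S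
  · obtain ⟨x, y, h⟩ := h2
    exact meet_block ha hb C S hC hS i (i + 1) i (Or.inr ⟨rfl, rfl⟩) hi x y h
  · refine ⟨.inr i, hCi, ?_⟩
    have hind : (Gam a b).IsIndepSet (insert (.inr i : Vx a b) S) := by
      have hvw : ∀ w ∈ S, ¬ (Gam a b).Adj (.inr i) w := by
        rintro (⟨l, x'', y''⟩ | l) hw hadj
        · rcases adj_rl.1 hadj with h | h
          · exact h1 ⟨x'', y'', h ▸ hw⟩
          · exact h2 ⟨x'', y'', h ▸ hw⟩
        · exact adj_rr hadj
      intro p hp q hq hpq
      rcases hp with rfl | hp
      · rcases hq with rfl | hq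
        · exact absurd rfl hpq
        · exact hvw q hq
      · rcases hq with rfl | hq
        · exact fun h => hvw p hp h.symm
        · exact hS.1 hp hq hpq
    exact hS.2 hind (Set.subset_insert _ _) (Set.mem_insert _ _)

/-- the block or the extra vertex -/
def typ : Vx a b → ZMod 5 ⊕ ZMod 5
  | .inl (i, _, _) => .inl i
  | .inr j => .inr j

lemma typ_l {i : ZMod 5} {x : Fin a} {y : Fin b} :
    typ (.inl (i, x, y) : Vx a b) = .inl i := rfl

lemma typ_r {i : ZMod 5} : typ (.inr i : Vx a b) = .inr i := rfl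

lemma card_split (S : Finset (Vx a b)) (m : ℕ)
    (h : ∀ i : ZMod 5, (S.filter fun v => typ v = .inl i).card ≤ m) (A : Finset (ZMod 5))
    (hA : ∀ i, (∃ x y, (.inl (i, x, y) : Vx a b) ∈ S) → i ∈ A) :
    S.card ≤ A.card * m + (univ.filter fun j : ZMod 5 => (.inr j : Vx a b) ∈ S).card := by
  classical
  have h0 : S.card = ∑ t : ZMod 5 ⊕ ZMod 5, (S.filter fun v => typ v = t).card := by
    rw [Finset.card_eq_sum_card_fiberwise (f := typ) (t := univ) (fun _ _ => by simp)]
  rw [h0, Fintype.sum_sum_type]
  apply Nat.add_le_add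
  · have h1 : ∀ i ∈ (univ : Finset (ZMod 5)), (S.filter fun v => typ v = .inl i).card ≤
        if i ∈ A then m else 0 := by
      intro i _
      by_cases hi : i ∈ A
      · rw [if_pos hi]; exact h i
      · rw [if_neg hi]
        have : (S.filter fun v => typ v = .inl i) = ∅ := by
          rw [Finset.filter_eq_empty_iff]
          rintro (⟨l, x, y⟩ | l) hv ht
          · simp only [typ_l, Sum.inl.injEq] at ht
            exact hi (hA i ⟨x, y, ht ▸ hv⟩)
          · simp [typ_l, typ_r] at ht
        rw [this]; simp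
    refine (Finset.sum_le_sum h1).trans ?_
    rw [← Finset.sum_filter, Finset.sum_const, smul_eq_mul]
    simp
  · rw [Finset.card_filter]
    apply Finset.sum_le_sum
    intro j _
    by_cases hj : (.inr j : Vx a b) ∈ S
    · rw [if_pos hj]
      apply Finset.card_le_one.2
      rintro (⟨l, x, y⟩ | l) hv (⟨l', x', y'⟩ | l') hv'
      · simp [typ_l, typ_r] at hv
      · simp [typ_l, typ_r] at hv
      · simp [typ_l, typ_r] at hv'
      · rw [mem_filter] at hv hv'
        simp only [typ_r, Sum.inr.injEq] at hv hv'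
        rw [hv.2, hv'.2]
    · rw [if_neg hj]
      have : (S.filter fun v => typ v = .inr j) = ∅ := by
        rw [Finset.filter_eq_empty_iff]
        rintro (⟨l, x, y⟩ | l) hv ht
        · simp [typ_l, typ_r] at ht
        · simp only [typ_r, Sum.inr.injEq] at ht
          exact hj (ht ▸ hv)
      rw [this]; simp

lemma stable_count : ∀ A B : Finset (ZMod 5), (∀ i ∈ A, i + 1 ∉ A) →
    (∀ j ∈ B, j ∉ A ∧ j + 1 ∉ A) → A.card ≤ 2 ∧ B.card + 2 * A.card ≤ 5 := by
  decide +kernel

lemma clique_count : ∀ A : Finset (ZMod 5), (∀ i ∈ A, ∀ j ∈ A, i = j ∨ j = i + 1 ∨ i = j + 1) →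
    A.card ≤ 2 := by
  decide +kernel

lemma stable_le (ha : 2 ≤ a) (S : Finset (Vx a b))
    (hS : (Gam a b).IsIndepSet (S : Set (Vx a b))) : S.card ≤ 2 * a + 1 := by
  classical
  set A : Finset (ZMod 5) := univ.filter fun i => ∃ x y, (.inl (i, x, y) : Vx a b) ∈ S with hA
  have h1 := card_split S a (fun i => ?_) A (fun i hi => by rw [hA, mem_filter]; exact ⟨mem_univ _, hi⟩)
  · obtain ⟨h2, h3⟩ := stable_count A (univ.filter fun j : ZMod 5 => (.inr j : Vx a b) ∈ S)
      (by
        intro i hi hi'
        rw [hA, mem_filter] at hi hi'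
        obtain ⟨_, x, y, h⟩ := hi
        obtain ⟨_, x', y', h'⟩ := hi'
        have hne : (.inl (i, x, y) : Vx a b) ≠ .inl (i + 1, x', y') := by
          intro he
          simp only [Sum.inl.injEq, Prod.mk.injEq] at he
          exact absurd he.1 (by clear he h h'; revert i; decide)
        exact hS (Finset.mem_coe.2 h) (Finset.mem_coe.2 h') hne (adj_ll.2 (Or.inr (Or.inl rfl))))
      (by
        intro j hj
        rw [mem_filter] at hj
        constructor
        · intro hjA
          rw [hA, mem_filter] at hjA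
          obtain ⟨_, x, y, h⟩ := hjA
          exact hS (Finset.mem_coe.2 h) (Finset.mem_coe.2 hj.2) (by simp)
            (adj_lr.2 (Or.inl rfl))
        · intro hjA
          rw [hA, mem_filter] at hjA
          obtain ⟨_, x, y, h⟩ := hjA
          exact hS (Finset.mem_coe.2 h) (Finset.mem_coe.2 hj.2) (by simp)
            (adj_lr.2 (Or.inr rfl)))
    have h4 : A.card = 0 ∨ A.card = 1 ∨ A.card = 2 := by omega
    rcases h4 with h4 | h4 | h4 <;> rw [h4] at h1 h3 <;> omega
  · -- at most one vertex of each clique of a block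
    have : (S.filter fun v => typ v = .inl i).card ≤ (univ : Finset (Fin a)).card := by
      refine Finset.card_le_card_of_injOn (fun v => match v with
        | .inl (_, x, _) => x
        | .inr _ => ⟨0, by omega⟩) (fun _ _ => by simp) ?_
      rintro (⟨l, x, y⟩ | l) hv (⟨l', x', y'⟩ | l') hv' hxx
      · rw [Finset.mem_coe, mem_filter] at hv hv'
        simp only [typ_l, Sum.inl.injEq] at hv hv'
        simp only at hxx
        by_contra hne
        obtain ⟨hv1, rfl⟩ := hv
        obtain ⟨hv2, rfl⟩ := hv'
        subst hxx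
        refine hS (Finset.mem_coe.2 hv1) (Finset.mem_coe.2 hv2) hne
          (adj_ll.2 (Or.inl ⟨rfl, rfl, ?_⟩))
        rintro rfl
        exact hne rfl
      · simp [typ_l, typ_r] at hv'
      · simp [typ_l, typ_r] at hv
      · simp [typ_l, typ_r] at hv
    simpa using this

lemma clique_le (S : Finset (Vx a b))
    (hS : (Gam a b).IsClique (S : Set (Vx a b))) : S.card ≤ 2 * b + 1 := by
  classical
  set A : Finset (ZMod 5) := univ.filter fun i => ∃ x y, (.inl (i, x, y) : Vx a b) ∈ S with hA
  have h1 := card_split S b (fun i => ?_) A (fun i hi => by rw [hA, mem_filter]; exact ⟨mem_univ _, hi⟩)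
  · have h2 := clique_count A (by
      intro i hi j hj
      rw [hA, mem_filter] at hi hj
      obtain ⟨_, x, y, h⟩ := hi
      obtain ⟨_, x', y', h'⟩ := hj
      by_cases he : (.inl (i, x, y) : Vx a b) = .inl (j, x', y')
      · simp only [Sum.inl.injEq, Prod.mk.injEq] at he
        exact Or.inl he.1
      · rcases adj_ll.1 (hS (Finset.mem_coe.2 h) (Finset.mem_coe.2 h') he) with ⟨h, _⟩ | h | h
        · exact Or.inl h
        · exact Or.inr (Or.inl h)
        · exact Or.inr (Or.inr h))
    have h3 : (univ.filter fun j : ZMod 5 => (.inr j : Vx a b) ∈ S).card ≤ 1 := by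
      apply Finset.card_le_one.2
      intro j hj j' hj'
      rw [mem_filter] at hj hj'
      by_contra hne
      exact adj_rr (hS (Finset.mem_coe.2 hj.2) (Finset.mem_coe.2 hj'.2) (by simpa using hne))
    have h4 : A.card * b ≤ 2 * b := Nat.mul_le_mul_right _ h2
    omega
  · have : (S.filter fun v => typ v = .inl i).card ≤ (univ : Finset (Fin b)).card := by
      by_cases hb : 0 < b
      · refine Finset.card_le_card_of_injOn (fun v => match v with
          | .inl (_, _, y) => y
          | .inr _ => ⟨0, hb⟩) (fun _ _ => by simp) ?_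
        rintro (⟨l, x, y⟩ | l) hv (⟨l', x', y'⟩ | l') hv' hxx
        · rw [Finset.mem_coe, mem_filter] at hv hv'
          simp only [typ_l, Sum.inl.injEq] at hv hv'
          simp only at hxx
          by_contra hne
          obtain ⟨hv1, rfl⟩ := hv
          obtain ⟨hv2, rfl⟩ := hv'
          subst hxx
          rcases adj_ll.1 (hS (Finset.mem_coe.2 hv1) (Finset.mem_coe.2 hv2) hne) with
            ⟨_, _, h⟩ | h | h
          · exact h rfl
          · exact z5' _ h
          · exact z5' _ h
        · simp [typ_l, typ_r] at hv'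
        · simp [typ_l, typ_r] at hv
        · simp [typ_l, typ_r] at hv
      · have h0 : (S.filter fun v => typ v = .inl i) = ∅ := by
          rw [Finset.filter_eq_empty_iff]
          rintro (⟨l, x, y⟩ | l) hv ht
          · exact hb (by have := y.2; omega)
          · simp [typ_l, typ_r] at ht
        rw [h0]; simp
    simpa using this

/-- a large stable set -/
def bigS (hb : 0 < b) : Option (Fin 2 × Fin a) → Vx a b
  | none => .inr 3
  | some (e, x) => .inl (if e = 0 then 0 else 2, x, ⟨0, hb⟩)

/-- a large clique -/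
def bigC (ha : 0 < a) : Option (Fin 2 × Fin b) → Vx a b
  | none => .inr 0
  | some (e, y) => .inl (if e = 0 then 0 else 1, ⟨0, ha⟩, y)

lemma e2 : ∀ e e' : Fin 2, (if e = 0 then (0 : ZMod 5) else 2) = (if e' = 0 then 0 else 2) →
    e = e' := by decide

lemma e2' : ∀ e e' : Fin 2, (if e = 0 then (0 : ZMod 5) else 1) = (if e' = 0 then 0 else 1) →
    e = e' := by decide

lemma e3 : ∀ e e' : Fin 2, ¬ ((if e' = 0 then (0 : ZMod 5) else 2) =
    (if e = 0 then 0 else 2) + 1) := by decide

lemma e4 : ∀ e : Fin 2, ¬ ((if e = 0 then (0 : ZMod 5) else 2) = 3 ∨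
    (if e = 0 then (0 : ZMod 5) else 2) = 3 + 1) := by decide

lemma e5 : ∀ e : Fin 2, ((if e = 0 then (0 : ZMod 5) else 1) = 0 ∨
    (if e = 0 then (0 : ZMod 5) else 1) = 0 + 1) := by decide

lemma e6 : ∀ e e' : Fin 2, e ≠ e' → ((if e' = 0 then (0 : ZMod 5) else 1) =
    (if e = 0 then 0 else 1) + 1 ∨ (if e = 0 then (0 : ZMod 5) else 1) =
    (if e' = 0 then 0 else 1) + 1) := by decide

lemma bigS_inj (hb : 0 < b) : Function.Injective (bigS (a := a) hb) := by
  rintro (_ | ⟨e, x⟩) (_ | ⟨e', x'⟩) h
  · rfl
  · simp [bigS] at h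
  · simp [bigS] at h
  · simp only [bigS, Sum.inl.injEq, Prod.mk.injEq] at h
    rw [e2 _ _ h.1, h.2.1]

lemma bigC_inj (ha : 0 < a) : Function.Injective (bigC (b := b) ha) := by
  rintro (_ | ⟨e, x⟩) (_ | ⟨e', x'⟩) h
  · rfl
  · simp [bigC] at h
  · simp [bigC] at h
  · simp only [bigC, Sum.inl.injEq, Prod.mk.injEq] at h
    rw [e2' _ _ h.1, h.2.2]

lemma bigS_stable (hb : 0 < b) :
    (Gam a b).IsIndepSet ((univ.image (bigS (a := a) hb) : Finset (Vx a b)) : Set (Vx a b)) := by
  intro p hp q hq hpq
  simp only [coe_image, coe_univ, Set.image_univ, Set.mem_range] at hp hq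
  obtain ⟨p, rfl⟩ := hp
  obtain ⟨q, rfl⟩ := hq
  rcases p with (_ | ⟨e, x⟩) <;> rcases q with (_ | ⟨e', x'⟩)
  · exact absurd rfl hpq
  · intro h
    exact e4 _ (adj_rl.1 h)
  · intro h
    exact e4 _ (adj_lr.1 h)
  · intro h
    rcases adj_ll.1 h with ⟨_, _, h⟩ | h | h
    · exact h rfl
    · exact e3 _ _ h
    · exact e3 _ _ h

lemma bigC_clique (ha : 0 < a) :
    (Gam a b).IsClique ((univ.image (bigC (b := b) ha) : Finset (Vx a b)) : Set (Vx a b)) := by
  intro p hp q hq hpq
  simp only [coe_image, coe_univ, Set.image_univ, Set.mem_range] at hp hq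
  obtain ⟨p, rfl⟩ := hp
  obtain ⟨q, rfl⟩ := hq
  rcases p with (_ | ⟨e, x⟩) <;> rcases q with (_ | ⟨e', x'⟩)
  · exact absurd rfl hpq
  · exact adj_rl.2 (e5 _)
  · exact adj_lr.2 (e5 _)
  · by_cases h : e = e'
    · subst h
      refine adj_ll.2 (Or.inl ⟨rfl, rfl, ?_⟩)
      rintro rfl
      exact hpq rfl
    · exact adj_ll.2 (Or.inr (e6 _ _ h))

lemma indepNum_eq (ha : 2 ≤ a) (hb : 0 < b) : (Gam a b).indepNum = 2 * a + 1 := by
  classical
  apply le_antisymm
  · obtain ⟨S, hS⟩ := (Gam a b).exists_isNIndepSet_indepNum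
    rw [← hS.card_eq]
    exact stable_le ha S hS.isIndepSet
  · have h := (bigS_stable (a := a) hb).card_le_indepNum
    rw [Finset.card_image_of_injective _ (bigS_inj hb)] at h
    simpa using h

lemma cliqueNum_eq (ha : 0 < a) : (Gam a b).cliqueNum = 2 * b + 1 := by
  classical
  apply le_antisymm
  · obtain ⟨S, hS⟩ := (Gam a b).exists_isNClique_cliqueNum
    rw [← hS.card_eq]
    exact clique_le S hS.isClique
  · have h := (bigC_clique (b := b) ha).card_le_cliqueNum
    rw [Finset.card_image_of_injective _ (bigC_inj ha)] at h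
    simpa using h

end construction

end Q108.CIS
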