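import Mathlib

set_option autoImplicit false

/-! A signed graph is subdivided: edges with sign `true` become paths of length 3, edges with sign
`false` become paths of length 2. -/

namespace Pool.Agent.Q108.FDomGraph

open SimpleGraph

variable {V : Type} [LinearOrder V] (G : SimpleGraph V) (σ : Sym2 V → Bool)

/-- internal vertices -/
abbrev Mid : Type := {p : V × V // G.Adj p.1 p.2 ∧ (σ s(p.1, p.2) = true ∨ p.1 < p.2)}

variable {G σ}

/-- the adjacency between branch vertices and internal vertices -/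
def BM (x : V) (p : Mid G σ) : Prop := x = p.1.1 ∨ (σ s(p.1.1, p.1.2) = false ∧ x = p.1.2)

/-- the adjacency between internal vertices -/
def MM (p q : Mid G σ) : Prop := σ s(p.1.1, p.1.2) = true ∧ q.1 = p.1.swap

lemma MM_symm {p q : Mid G σ} (h : MM p q) : MM q p := by
  obtain ⟨h1, h2⟩ := h
  refine ⟨?_, ?_⟩
  · rw [h2]
    simp only [Prod.fst_swap, Prod.snd_swap]
    rw [Sym2.eq_swap]; exact h1
  · rw [h2, Prod.swap_swap]

variable (G σ)

/-- the subdivided graph -/
def sub : SimpleGraph (V ⊕ Mid G σ) where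
  Adj
    | .inl _, .inl _ => False
    | .inl x, .inr p => BM x p
    | .inr p, .inl x => BM x p
    | .inr p, .inr q => MM p q
  symm := ⟨by
    rintro (x | p) (y | q) h
    · exact h
    · exact h
    · exact h
    · exact MM_symm h⟩
  loopless := ⟨by
    rintro (x | p) h
    · exact h
    · obtain ⟨-, h2⟩ := h
      have h3 := congrArg Prod.fst h2
      simp only [Prod.fst_swap] at h3
      exact p.2.1.ne h3⟩

variable {G σ}

@[simp] lemma adj_ll (x y : V) : (sub G σ).Adj (.inl x) (.inl y) ↔ False := Iff.rfl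
@[simp] lemma adj_lr (x : V) (p : Mid G σ) : (sub G σ).Adj (.inl x) (.inr p) ↔ BM x p := Iff.rfl
@[simp] lemma adj_rl (x : V) (p : Mid G σ) : (sub G σ).Adj (.inr p) (.inl x) ↔ BM x p := Iff.rfl
@[simp] lemma adj_rr (p q : Mid G σ) : (sub G σ).Adj (.inr p) (.inr q) ↔ MM p q := Iff.rfl

/-- the projection -/
def pr : V ⊕ Mid G σ → V
  | .inl x => x
  | .inr p => p.1.1

/-- edges project to edges or collapse -/
lemma pr_adj {a b : V ⊕ Mid G σ} (h : (sub G σ).Adj a b) (hne : pr a ≠ pr b) :
    G.Adj (pr a) (pr b) := by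
  rcases a with x | p <;> rcases b with y | q
  · exact absurd h (by simp)
  · rcases h with h | ⟨-, h⟩
    · exact absurd h hne
    · simp only [pr]; rw [h]; exact q.2.1.symm
  · rcases h with h | ⟨-, h⟩
    · exact absurd h.symm hne
    · simp only [pr]; rw [h]; exact p.2.1
  · obtain ⟨-, h⟩ := h
    simp only [pr]; rw [h]; exact p.2.1

/-- the projection of an edge -/
noncomputable def rho (e : Sym2 (V ⊕ Mid G σ)) : Option (Sym2 V) :=
  open Classical in
  Sym2.lift ⟨fun a b => if pr a = pr b then none else some s(pr a, pr b), by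
    intro a b
    beta_reduce
    by_cases h : pr a = pr b
    · simp [h]
    · rw [if_neg h, if_neg (Ne.symm h), Sym2.eq_swap]⟩ e

lemma rho_mk_eq {a b : V ⊕ Mid G σ} (h : pr a = pr b) : rho s(a, b) = none := by
  simp [rho, h]

lemma rho_mk_ne {a b : V ⊕ Mid G σ} (h : pr a ≠ pr b) : rho s(a, b) = some s(pr a, pr b) := by
  simp [rho, h]

/-- the canonical form of the edges which do not collapse -/
lemma canon {a b : V ⊕ Mid G σ} (h : (sub G σ).Adj a b) (hne : pr a ≠ pr b) :
    (∃ p q : Mid G σ, σ s(p.1.1, p.1.2) = true ∧ q.1 = p.1.swap ∧ s(a, b) = s(.inr p, .inr q) ∧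
      s(pr a, pr b) = s(p.1.1, p.1.2)) ∨
    (∃ p : Mid G σ, σ s(p.1.1, p.1.2) = false ∧ s(a, b) = s(.inl p.1.2, .inr p) ∧
      s(pr a, pr b) = s(p.1.1, p.1.2)) := by
  rcases a with x | p <;> rcases b with y | q
  · exact absurd h (by simp)
  · rcases h with h | ⟨h0, h⟩
    · exact absurd h hne
    · right
      refine ⟨q, h0, by rw [h], ?_⟩
      simp only [pr]; rw [h, Sym2.eq_swap]
  · rcases h with h | ⟨h0, h⟩
    · exact absurd h.symm hne
    · right
      refine ⟨p, h0, by rw [h, Sym2.eq_swap], ?_⟩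
      simp only [pr]; rw [h]
  · obtain ⟨h0, h⟩ := h
    left
    refine ⟨p, q, h0, h, rfl, ?_⟩
    simp only [pr]; rw [h]; rfl

lemma rho_inj {e f : Sym2 (V ⊕ Mid G σ)} (he : e ∈ (sub G σ).edgeSet) (hf : f ∈ (sub G σ).edgeSet)
    {d : Sym2 V} (hed : rho e = some d) (hfd : rho f = some d) : e = f := by
  induction e with
  | h a b =>
  induction f with
  | h a' b' =>
  rw [mem_edgeSet] at he hf
  have h1 : pr a ≠ pr b := by
    intro h; rw [rho_mk_eq h] at hed; exact absurd hed (by simp)
  have h2 : pr a' ≠ pr b' := by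
    intro h; rw [rho_mk_eq h] at hfd; exact absurd hfd (by simp)
  rw [rho_mk_ne h1] at hed
  rw [rho_mk_ne h2] at hfd
  have hd : s(pr a, pr b) = s(pr a', pr b') := by
    rw [Option.some_inj.1 hed, Option.some_inj.1 hfd]
  rcases canon he h1 with ⟨p, q, hs, hq, hab, hp⟩ | ⟨p, hs, hab, hp⟩ <;>
  rcases canon hf h2 with ⟨p', q', hs', hq', hab', hp'⟩ | ⟨p', hs', hab', hp'⟩
  · rw [hp, hp'] at hd
    rw [hab, hab']
    rcases Sym2.eq_iff.1 hd with ⟨e1, e2⟩ | ⟨e1, e2⟩
    · have hpp : p = p' := Subtype.ext (Prod.ext e1 e2)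
      have hqq : q = q' := Subtype.ext (by rw [hq, hq', hpp])
      rw [hpp, hqq]
    · have hpq : p = q' := Subtype.ext (by rw [hq']; exact Prod.ext e1 e2)
      have hqp : q = p' := Subtype.ext (by rw [hq]; exact Prod.ext e2 e1)
      rw [hpq, hqp, Sym2.eq_swap]
  · rw [hp, hp'] at hd
    rw [hd, hs'] at hs
    exact absurd hs (by simp)
  · rw [hp, hp'] at hd
    rw [hd, hs'] at hs
    exact absurd hs (by simp)
  · rw [hp, hp'] at hd
    have l1 : p.1.1 < p.1.2 := p.2.2.resolve_left (by rw [hs]; simp)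
    have l2 : p'.1.1 < p'.1.2 := p'.2.2.resolve_left (by rw [hs']; simp)
    have hpp : p = p' := by
      rcases Sym2.eq_iff.1 hd with ⟨e1, e2⟩ | ⟨e1, e2⟩
      · exact Subtype.ext (Prod.ext e1 e2)
      · rw [e1, e2] at l1
        exact absurd l2 (not_lt.2 l1.le)
    rw [hab, hab', hpp]

/-- the projection of a walk -/
lemma exists_proj : ∀ {a b : V ⊕ Mid G σ} (w : (sub G σ).Walk a b),
    ∃ p : G.Walk (pr a) (pr b), p.edges = w.edges.filterMap rho ∧ p.length ≤ w.length
  | a, _, .nil => ⟨.nil, by simp, by simp⟩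
  | a, b, .cons (v := c) h w => by
    obtain ⟨p, hp, hl⟩ := exists_proj w
    by_cases hne : pr a = pr c
    · refine ⟨p.copy hne.symm rfl, ?_, ?_⟩
      · rw [Walk.edges_copy, Walk.edges_cons, List.filterMap_cons, rho_mk_eq hne, hp]
      · rw [Walk.length_copy, Walk.length_cons]; omega
    · refine ⟨.cons (pr_adj h hne) p, ?_, ?_⟩
      · rw [Walk.edges_cons, Walk.edges_cons, List.filterMap_cons, rho_mk_ne hne, hp]
      · rw [Walk.length_cons, Walk.length_cons]; omega

/-- every collapsed edge contains its branch vertex -/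
lemma collapsed {a b : V ⊕ Mid G σ} (h : (sub G σ).Adj a b) (he : pr a = pr b) :
    a = .inl (pr a) ∨ b = .inl (pr a) := by
  rcases a with x | p <;> rcases b with y | q
  · exact Or.inl rfl
  · exact Or.inl rfl
  · right; rw [he]; rfl
  · obtain ⟨-, h2⟩ := h
    simp only [pr] at he
    rw [h2] at he
    exact absurd he p.2.1.ne

theorem girth_sub (g : ℕ) (hg : (g : ℕ∞) ≤ G.egirth) : (g : ℕ∞) ≤ (sub G σ).egirth := by
  rw [le_egirth] at hg ⊢
  intro a c hc
  obtain ⟨p, hp, hl⟩ := exists_proj c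
  have htrail : p.IsTrail := by
    rw [Walk.isTrail_def, hp, List.Nodup, List.pairwise_filterMap]
    refine List.Pairwise.imp_of_mem (R := (· ≠ ·)) ?_ hc.isTrail.edges_nodup
    intro e f he hf hef d hd d' hd' hdd
    subst hdd
    exact hef (rho_inj (c.edges_subset_edgeSet he) (c.edges_subset_edgeSet hf) hd hd')
  have hne : p ≠ .nil := by
    intro hnil
    have h0 : ∀ e ∈ c.edges, rho e = none := by
      rw [hnil] at hp
      simp only [Walk.edges_nil] at hp
      exact List.filterMap_eq_nil_iff.1 hp.symm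
    have h3 := hc.three_le_length
    have hcol : ∀ i, i < c.length → pr (c.getVert i) = pr (c.getVert (i + 1)) := by
      intro i hi
      by_contra hne
      have hmem : s(c.getVert i, c.getVert (i + 1)) ∈ c.edges :=
        Walk.adj_toSubgraph_iff_mem_edges.1 (c.toSubgraph_adj_getVert hi)
      have := h0 _ hmem
      rw [rho_mk_ne hne] at this
      exact absurd this (by simp)
    have p01 : pr (c.getVert 0) = pr (c.getVert 1) := hcol 0 (by omega)
    have p12 : pr (c.getVert 1) = pr (c.getVert 2) := hcol 1 (by omega)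
    have p23 : pr (c.getVert 2) = pr (c.getVert 3) := hcol 2 (by omega)
    have a01 : (sub G σ).Adj (c.getVert 0) (c.getVert 1) := c.adj_getVert_succ (i := 0) (by omega)
    have a12 : (sub G σ).Adj (c.getVert 1) (c.getVert 2) := c.adj_getVert_succ (i := 1) (by omega)
    have a23 : (sub G σ).Adj (c.getVert 2) (c.getVert 3) := c.adj_getVert_succ (i := 2) (by omega)
    have c01 := collapsed a01 p01
    have c12 := collapsed a12 p12
    have c23 := collapsed a23 p23
    have n02 : c.getVert 0 ≠ c.getVert 2 := hc.getVert_sub_one_ne_getVert_add_one (i := 1) (by omega)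
    have n13 : c.getVert 1 ≠ c.getVert 3 := hc.getVert_sub_one_ne_getVert_add_one (i := 2) (by omega)
    have n12 := a12.ne
    rw [← p12, ← p01] at c23
    rw [← p01] at c12
    rcases c01 with e0 | e1
    · rcases c12 with e1 | e2
      · rcases c23 with e2 | e3
        · exact n12 (e1.trans e2.symm)
        · exact n13 (e1.trans e3.symm)
      · exact n02 (e0.trans e2.symm)
    · rcases c23 with e2 | e3
      · exact n12 (e1.trans e2.symm)
      · exact n13 (e1.trans e3.symm)
  have hcirc : p.IsCircuit := ⟨htrail, hne⟩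
  have h1 := hg _ p.cycleBypass hcirc.isCycle_cycleBypass
  have h2 := p.length_cycleBypass_le_length
  have h3 : p.cycleBypass.length ≤ c.length := h2.trans hl
  exact h1.trans (by exact_mod_cast h3)

/-! ### Degrees -/

/-- the internal vertex next to `x` on the subdivided edge `xy` -/
lemma exists_mid {x y : V} (h : G.Adj x y) : ∃ p : Mid G σ, BM x p ∧ s(p.1.1, p.1.2) = s(x, y) := by
  by_cases hs : σ s(x, y) = true
  · exact ⟨⟨(x, y), h, Or.inl hs⟩, Or.inl rfl, rfl⟩
  · rcases lt_or_gt_of_ne h.ne with hlt | hlt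
    · exact ⟨⟨(x, y), h, Or.inr hlt⟩, Or.inl rfl, rfl⟩
    · refine ⟨⟨(y, x), h.symm, Or.inr hlt⟩, Or.inr ⟨?_, rfl⟩, Sym2.eq_swap⟩
      rw [Sym2.eq_swap]
      simpa using hs

lemma deg_mid (p : Mid G σ) : ((sub G σ).neighborSet (.inr p)).ncard = 2 := by
  rw [Set.ncard_eq_two]
  by_cases hs : σ s(p.1.1, p.1.2) = true
  · have hsw : σ s(p.1.2, p.1.1) = true := by rw [Sym2.eq_swap]; exact hs
    refine ⟨.inl p.1.1, .inr ⟨(p.1.2, p.1.1), p.2.1.symm, Or.inl hsw⟩, by simp, ?_⟩
    ext z
    simp only [mem_neighborSet, Set.mem_insert_iff, Set.mem_singleton_iff]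
    rcases z with x | q
    · simp only [adj_rl, BM, Sum.inl.injEq, reduceCtorEq, or_false]
      constructor
      · rintro (h | ⟨h, -⟩)
        · exact h
        · rw [hs] at h; exact absurd h (by simp)
      · exact Or.inl
    · simp only [adj_rr, MM, reduceCtorEq, Sum.inr.injEq, false_or]
      constructor
      · rintro ⟨-, h⟩
        exact Subtype.ext h
      · intro h
        rw [h]
        exact ⟨hs, rfl⟩
  · refine ⟨.inl p.1.1, .inl p.1.2, by simpa using p.2.1.ne, ?_⟩
    ext z
    simp only [mem_neighborSet, Set.mem_insert_iff, Set.mem_singleton_iff]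
    rcases z with x | q
    · simp only [adj_rl, BM, Sum.inl.injEq]
      constructor
      · rintro (h | ⟨-, h⟩)
        · exact Or.inl h
        · exact Or.inr h
      · rintro (h | h)
        · exact Or.inl h
        · exact Or.inr ⟨by simpa using hs, h⟩
    · simp only [adj_rr, MM, reduceCtorEq, or_self, iff_false]
      rintro ⟨h, -⟩
      exact hs h

lemma deg_branch [Finite V] {x y1 y2 : V} (h1 : G.Adj x y1) (h2 : G.Adj x y2) (hne : y1 ≠ y2) :
    2 ≤ ((sub G σ).neighborSet (.inl x)).ncard := by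
  obtain ⟨p1, hp1, e1⟩ := exists_mid (σ := σ) h1
  obtain ⟨p2, hp2, e2⟩ := exists_mid (σ := σ) h2
  have hp : p1 ≠ p2 := by
    intro h
    rw [h, e2] at e1
    rcases Sym2.eq_iff.1 e1 with ⟨-, h⟩ | ⟨h, -⟩
    · exact hne h.symm
    · exact h1.ne h
  have hsub : ({.inr p1, .inr p2} : Set (V ⊕ Mid G σ)) ⊆ (sub G σ).neighborSet (.inl x) := by
    intro z hz
    simp only [Set.mem_insert_iff, Set.mem_singleton_iff] at hz
    rcases hz with rfl | rfl
    · exact hp1
    · exact hp2
  have hpair : ({.inr p1, .inr p2} : Set (V ⊕ Mid G σ)).ncard = 2 :=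
    Set.ncard_pair (by simpa using hp)
  rw [← hpair]
  exact Set.ncard_le_ncard hsub (Set.toFinite _)

end Pool.Agent.Q108.FDomGraph
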