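import Mathlib

set_option autoImplicit false

/-! Hamiltonian cycles through all short paths of the generalized Petersen graphs `GP(n,2)`. -/

namespace Pool.Agent.Q108.Petersen2

open SimpleGraph

/-- local vertices: `(false,i)` is `u_i`, `(true,i)` is `v_i` -/
abbrev W := Bool × ℤ

/-- local adjacency -/
def R (x y : W) : Prop :=
  (x.1 = false ∧ y.1 = false ∧ (y.2 = x.2 + 1 ∨ x.2 = y.2 + 1)) ∨
  (x.1 = true ∧ y.1 = true ∧ (y.2 = x.2 + 2 ∨ x.2 = y.2 + 2)) ∨
  (x.1 ≠ y.1 ∧ x.2 = y.2)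

instance : DecidableRel R := fun x y => by unfold R; infer_instance

/-- the generalized Petersen graph `GP(n,k)` on `Bool × ZMod n` -/
def GP (n k : ℕ) : SimpleGraph (Bool × ZMod n) where
  Adj x y := x ≠ y ∧
    ((x.1 = false ∧ y.1 = false ∧ (y.2 = x.2 + 1 ∨ x.2 = y.2 + 1)) ∨
     (x.1 = true ∧ y.1 = true ∧ (y.2 = x.2 + k ∨ x.2 = y.2 + k)) ∨
     (x.1 ≠ y.1 ∧ x.2 = y.2))
  symm := ⟨by
    rintro x y ⟨hne, h⟩
    refine ⟨hne.symm, ?_⟩
    rcases h with ⟨h1, h2, h3⟩ | ⟨h1, h2, h3⟩ | ⟨h1, h2⟩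
    · exact Or.inl ⟨h2, h1, h3.symm⟩
    · exact Or.inr (Or.inl ⟨h2, h1, h3.symm⟩)
    · exact Or.inr (Or.inr ⟨h1.symm, h2.symm⟩)⟩
  loopless := ⟨fun x h => h.1 rfl⟩

section ham
variable {V : Type*} [DecidableEq V] {G : SimpleGraph V}

omit [DecidableEq V] in
lemma exists_walk : ∀ (l : List V) (a : V), (a :: l).IsChain G.Adj →
    ∃ p : G.Walk a ((a :: l).getLast (List.cons_ne_nil _ _)), p.support = a :: l ∧
      ∀ x y, [x, y] <:+: a :: l → s(x, y) ∈ p.edges
  | [], a, _ => ⟨Walk.nil, by simp, fun x y h => by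
      have := h.length_le
      simp at this⟩
  | b :: l, a, hc => by
    obtain ⟨p, hp, he⟩ := exists_walk l b hc.of_cons
    refine ⟨Walk.cons hc.rel (p.copy rfl (by simp)), by simp [hp], ?_⟩
    intro x y h
    rw [Walk.edges_cons, Walk.edges_copy]
    rw [List.infix_cons_iff] at h
    rcases h with h | h
    · have h0 := List.prefix_iff_eq_append.1 h
      simp only [List.cons_append, List.nil_append, List.cons.injEq] at h0
      rw [h0.1, h0.2.1]
      exact List.mem_cons_self
    · exact List.mem_cons_of_mem _ (he x y h)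

/-- a cyclic list gives a Hamiltonian cycle -/
theorem exists_ham (a : V) (l : List V) (hlen : 2 ≤ l.length) (hc : (a :: l).IsChain G.Adj)
    (hnd : (a :: l).Nodup) (hall : ∀ x, x ∈ a :: l)
    (hcl : G.Adj ((a :: l).getLast (List.cons_ne_nil _ _)) a) :
    ∃ (v : V) (c : G.Walk v v), c.IsHamiltonianCycle ∧
      ∀ x y, [x, y] <:+: a :: l → s(x, y) ∈ c.edges := by
  obtain ⟨p, hp, he⟩ := exists_walk l a hc
  have hpath : p.IsPath := by rw [Walk.isPath_def, hp]; exact hnd
  have hplen : p.length = l.length := by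
    have := p.length_support
    rw [hp] at this
    simpa using this.symm
  refine ⟨_, Walk.cons hcl p, ?_, ?_⟩
  · rw [Walk.isHamiltonianCycle_iff_isCycle_and_support_count_tail_eq_one]
    refine ⟨?_, ?_⟩
    · rw [Walk.cons_isCycle_iff]
      refine ⟨hpath, ?_⟩
      intro hmem
      rw [Sym2.eq_swap] at hmem
      have := hpath.length_eq_one_of_mem_edges hmem
      omega
    · intro x
      rw [Walk.support_cons, List.tail_cons, hp]
      exact List.count_eq_one_of_mem hnd (hall x)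
  · intro x y h
    rw [Walk.edges_cons]
    exact List.mem_cons_of_mem _ (he x y h)

end ham


/-- shift -/
def sh (k : ℤ) (x : W) : W := (x.1, x.2 + k)

@[simp] lemma sh_fst (k : ℤ) (x : W) : (sh k x).1 = x.1 := rfl
@[simp] lemma sh_snd (k : ℤ) (x : W) : (sh k x).2 = x.2 + k := rfl

lemma R_sh (k : ℤ) (x y : W) : R (sh k x) (sh k y) ↔ R x y := by
  unfold R sh
  constructor
  · rintro (⟨h1, h2, h3⟩ | ⟨h1, h2, h3⟩ | ⟨h1, h2⟩)
    · refine Or.inl ⟨h1, h2, ?_⟩
      simp only at h3; omega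
    · refine Or.inr (Or.inl ⟨h1, h2, ?_⟩)
      simp only at h3; omega
    · refine Or.inr (Or.inr ⟨h1, ?_⟩)
      simp only at h2; omega
  · rintro (⟨h1, h2, h3⟩ | ⟨h1, h2, h3⟩ | ⟨h1, h2⟩)
    · refine Or.inl ⟨h1, h2, ?_⟩
      simp only; omega
    · refine Or.inr (Or.inl ⟨h1, h2, ?_⟩)
      simp only; omega
    · refine Or.inr (Or.inr ⟨h1, ?_⟩)
      simp only; omega

lemma sh_inj (k : ℤ) : Function.Injective (sh k) := by
  intro x y h
  have h1 : (sh k x).1 = (sh k y).1 := by rw [h]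
  have h2 : (sh k x).2 = (sh k y).2 := by rw [h]
  simp only [sh_fst, sh_snd] at h1 h2
  exact Prod.ext h1 (by omega)

lemma sh_sh (j k : ℤ) (x : W) : sh j (sh k x) = sh (k + j) x := by
  unfold sh; simp [add_assoc]

lemma chain_sh (k : ℤ) (l : List W) (h : l.IsChain R) : (l.map (sh k)).IsChain R := by
  rw [List.isChain_map]
  exact h.imp (fun a b hab => (R_sh k a b).2 hab)

/-- forward strand -/
def Fm (F0 FB : List W) : ℕ → List W
  | 0 => F0
  | m + 1 => Fm F0 FB m ++ FB.map (sh (6 * m))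

/-- backward strand -/
def Bm (BB B0 : List W) : ℕ → List W
  | 0 => B0
  | m + 1 => BB.map (sh (6 * m)) ++ Bm BB B0 m

/-- the data of a family of Hamiltonian cycles -/
structure Data where
  F0 : List W
  FB : List W
  BB : List W
  B0 : List W

/-- the check -/
def Data.Good (D : Data) : Prop :=
  D.F0.IsChain R ∧ D.FB.IsChain R ∧ D.BB.IsChain R ∧ D.B0.IsChain R ∧
  (D.F0 ++ D.B0).Nodup ∧ (∀ x ∈ D.F0 ++ D.B0, 1 ≤ x.2 ∧ x.2 ≤ 10) ∧
  (∀ b : Bool, ∀ i ∈ List.range 10, (b, (i : ℤ) + 1) ∈ D.F0 ++ D.B0) ∧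
  (D.FB ++ D.BB).Nodup ∧ (∀ x ∈ D.FB ++ D.BB, 11 ≤ x.2 ∧ x.2 ≤ 16) ∧
  (∀ b : Bool, ∀ i ∈ List.range 6, (b, (i : ℤ) + 11) ∈ D.FB ++ D.BB) ∧
  (∀ e ∈ D.F0.getLast?, ∀ f ∈ D.FB.head?, R e f) ∧
  D.FB.getLast? = D.F0.getLast?.map (sh 6) ∧
  (∀ b ∈ D.BB.getLast?, ∀ h ∈ D.B0.head?, R b h) ∧
  D.BB.head? = D.B0.head?.map (sh 6) ∧
  (∀ e ∈ D.F0.getLast?, ∀ h ∈ D.B0.head?, R e h) ∧
  D.F0 ≠ [] ∧
  ((D.B0 = [] ∧ ∀ e ∈ D.F0.getLast?, ∀ a ∈ D.F0.head?, R (sh (-10) e) a) ∨
   (D.B0 ≠ [] ∧ ∀ e ∈ D.B0.getLast?, ∀ a ∈ D.F0.head?, R e a))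

instance (D : Data) : Decidable D.Good := by unfold Data.Good; infer_instance

/-- the list of the cycle -/
def Data.L (D : Data) (m : ℕ) : List W := Fm D.F0 D.FB m ++ Bm D.BB D.B0 m

lemma Fm_last (F0 FB : List W) (h0 : F0 ≠ []) (h : FB.getLast? = F0.getLast?.map (sh 6)) (m : ℕ) :
    (Fm F0 FB m).getLast? = F0.getLast?.map (sh (6 * m)) := by
  induction m with
  | zero =>
    have : (sh (6 * ((0 : ℕ) : ℤ))) = id := by
      funext x; simp [sh]
    rw [this]; simp [Fm]
  | succ m ih =>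
    have h1 : FB ≠ [] := by
      rintro rfl
      simp at h
      exact h0 h
    rw [Fm, List.getLast?_append_of_ne_nil _ (by simpa using h1), List.getLast?_map, h,
      Option.map_map]
    congr 1
    funext x
    simp only [Function.comp, sh_sh]
    congr 1
    push_cast; ring

lemma Bm_head (BB B0 : List W) (h : BB.head? = B0.head?.map (sh 6)) (m : ℕ) :
    (Bm BB B0 m).head? = B0.head?.map (sh (6 * m)) := by
  induction m with
  | zero =>
    have : (sh (6 * ((0 : ℕ) : ℤ))) = id := by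
      funext x; simp [sh]
    rw [this]; simp [Bm]
  | succ m ih =>
    by_cases h1 : BB = []
    · subst h1
      have h0 : B0 = [] := by
        simp at h
        simpa using h.symm
      rw [Bm]
      simp only [List.map_nil, List.nil_append]
      rw [ih, h0]; simp
    · rw [Bm, List.head?_append_of_ne_nil _ (by simpa using h1), List.head?_map, h,
        Option.map_map]
      congr 1
      funext x
      simp only [Function.comp, sh_sh]
      congr 1
      push_cast; ring


lemma Fm_chain (F0 FB : List W) (h0 : F0 ≠ []) (hc0 : F0.IsChain R) (hcB : FB.IsChain R)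
    (hl : ∀ e ∈ F0.getLast?, ∀ f ∈ FB.head?, R e f)
    (h : FB.getLast? = F0.getLast?.map (sh 6)) (m : ℕ) : (Fm F0 FB m).IsChain R := by
  induction m with
  | zero => exact hc0
  | succ m ih =>
    rw [Fm, List.isChain_append]
    refine ⟨ih, chain_sh _ _ hcB, ?_⟩
    intro x hx y hy
    rw [Fm_last F0 FB h0 h m] at hx
    rw [List.head?_map] at hy
    obtain ⟨x', hx', rfl⟩ := Option.mem_map.1 hx
    obtain ⟨y', hy', rfl⟩ := Option.mem_map.1 hy
    exact (R_sh _ _ _).2 (hl x' hx' y' hy')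

lemma Bm_chain (BB B0 : List W) (hc0 : B0.IsChain R) (hcB : BB.IsChain R)
    (hl : ∀ e ∈ BB.getLast?, ∀ f ∈ B0.head?, R e f)
    (h : BB.head? = B0.head?.map (sh 6)) (m : ℕ) : (Bm BB B0 m).IsChain R := by
  induction m with
  | zero => exact hc0
  | succ m ih =>
    rw [Bm, List.isChain_append]
    refine ⟨chain_sh _ _ hcB, ih, ?_⟩
    intro x hx y hy
    rw [Bm_head BB B0 h m] at hy
    rw [List.getLast?_map] at hx
    obtain ⟨x', hx', rfl⟩ := Option.mem_map.1 hx
    obtain ⟨y', hy', rfl⟩ := Option.mem_map.1 hy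
    exact (R_sh _ _ _).2 (hl x' hx' y' hy')

lemma L_perm (D : Data) (m : ℕ) :
    (D.L (m + 1)).Perm (D.L m ++ (D.FB ++ D.BB).map (sh (6 * m))) := by
  unfold Data.L
  rw [Fm, Bm, List.map_append]
  have h1 : ∀ A B C E : List W, ((A ++ B) ++ (C ++ E)).Perm ((A ++ E) ++ (B ++ C)) := by
    intro A B C E
    rw [List.append_assoc, List.append_assoc]
    refine List.Perm.append_left A ?_
    rw [← List.append_assoc]
    exact List.perm_append_comm
  exact h1 _ _ _ _

lemma L_prop (D : Data) (hD : D.Good) (m : ℕ) :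
    (D.L m).Nodup ∧ ∀ x : W, x ∈ D.L m ↔ 1 ≤ x.2 ∧ x.2 ≤ 6 * m + 10 := by
  obtain ⟨-, -, -, -, hnd, hr, hall, hndB, hrB, hallB, -⟩ := hD
  induction m with
  | zero =>
    refine ⟨hnd, fun x => ⟨fun h => ?_, fun h => ?_⟩⟩
    · have := hr x h
      push_cast; omega
    · have h2 := hall x.1 (x.2 - 1).toNat (by
        rw [List.mem_range]; push_cast at h; omega)
      have h3 : ((x.1, (((x.2 - 1).toNat : ℕ) : ℤ) + 1) : W) = x := by
        refine Prod.ext rfl ?_
        simp only; omega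
      rw [h3] at h2
      exact h2
  | succ m ih =>
    obtain ⟨ih1, ih2⟩ := ih
    have hp := L_perm D m
    constructor
    · rw [hp.nodup_iff, List.nodup_append]
      refine ⟨ih1, hndB.map (sh_inj _), ?_⟩
      intro x hx y hy hxy
      subst hxy
      obtain ⟨z, hz, hzx⟩ := List.mem_map.1 hy
      have h1 := (ih2 x).1 hx
      have h2 := hrB z hz
      rw [← hzx] at h1
      simp only [sh_snd] at h1
      omega
    · intro x
      rw [hp.mem_iff, List.mem_append, ih2 x]
      constructor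
      · rintro (h | h)
        · push_cast; omega
        · obtain ⟨z, hz, rfl⟩ := List.mem_map.1 h
          have h2 := hrB z hz
          simp only [sh_snd]
          push_cast; omega
      · rintro ⟨h1, h2⟩
        push_cast at h2
        by_cases h3 : x.2 ≤ 6 * m + 10
        · exact Or.inl ⟨h1, h3⟩
        · right
          have h4 := hallB x.1 (x.2 - 11 - 6 * m).toNat (by
            rw [List.mem_range]; omega)
          refine List.mem_map.2 ⟨_, h4, ?_⟩
          refine Prod.ext rfl ?_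
          simp only [sh_snd]; omega

lemma L_chain (D : Data) (hD : D.Good) (m : ℕ) : (D.L m).IsChain R := by
  obtain ⟨h1, h2, h3, h4, -, -, -, -, -, -, h5, h6, h7, h8, h9, h10, -⟩ := hD
  unfold Data.L
  rw [List.isChain_append]
  refine ⟨Fm_chain _ _ h10 h1 h2 h5 h6 m, Bm_chain _ _ h4 h3 h7 h8 m, ?_⟩
  intro x hx y hy
  rw [Fm_last _ _ h10 h6 m] at hx
  rw [Bm_head _ _ h8 m] at hy
  obtain ⟨x', hx', rfl⟩ := Option.mem_map.1 hx
  obtain ⟨y', hy', rfl⟩ := Option.mem_map.1 hy
  exact (R_sh _ _ _).2 (h9 x' hx' y' hy')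

lemma Fm_prefix (F0 FB : List W) (m : ℕ) : F0 <+: Fm F0 FB m := by
  induction m with
  | zero => exact List.prefix_rfl
  | succ m ih => exact ih.trans (List.prefix_append _ _)

lemma Bm_suffix (BB B0 : List W) (m : ℕ) : B0 <:+ Bm BB B0 m := by
  induction m with
  | zero => exact List.suffix_rfl
  | succ m ih => exact ih.trans (List.suffix_append _ _)

lemma F0_infix (D : Data) (m : ℕ) : D.F0 <:+: D.L m :=
  ((Fm_prefix _ _ m).trans (List.prefix_append _ _)).isInfix

lemma B0_infix (D : Data) (m : ℕ) : D.B0 <:+: D.L m :=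
  ((Bm_suffix _ _ m).trans (List.suffix_append _ _)).isInfix

/-- casting to the cyclic graph -/
def cst (n : ℕ) (t : ZMod n) (x : W) : Bool × ZMod n := (x.1, (x.2 : ZMod n) + t)

lemma intCast_inj_of_lt {n : ℕ} {a b : ℤ} (h : (a : ZMod n) = b) (h1 : a - b < n) (h2 : b - a < n) :
    a = b := by
  have h3 := (ZMod.intCast_eq_intCast_iff_dvd_sub a b n).1 h
  by_contra hne
  have h4 := Int.le_of_dvd (a := (n : ℤ)) (b := |b - a|) (abs_pos.2 (by omega)) ((dvd_abs _ _).2 h3)
  rcases abs_cases (b - a) with ⟨h5, _⟩ | ⟨h5, _⟩ <;> omega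

lemma adj_cst (n : ℕ) (hn : 3 ≤ n) (t : ZMod n) (x y : W) (h : R x y) :
    (GP n 2).Adj (cst n t x) (cst n t y) := by
  refine ⟨?_, ?_⟩
  · intro he
    have e1 : x.1 = y.1 := by
      have := congrArg Prod.fst he
      simpa [cst] using this
    have e2 : (x.2 : ZMod n) = y.2 := by
      have := congrArg Prod.snd he
      simpa [cst] using this
    rcases h with ⟨h1, h2, h3⟩ | ⟨h1, h2, h3⟩ | ⟨h1, h2⟩
    · have := intCast_inj_of_lt e2 (by omega) (by omega)
      omega
    · have := intCast_inj_of_lt e2 (by omega) (by omega)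
      omega
    · exact h1 e1
  · rcases h with ⟨h1, h2, h3⟩ | ⟨h1, h2, h3⟩ | ⟨h1, h2⟩
    · refine Or.inl ⟨h1, h2, ?_⟩
      rcases h3 with h3 | h3
      · left; simp only [cst]; rw [h3]; push_cast; ring
      · right; simp only [cst]; rw [h3]; push_cast; ring
    · refine Or.inr (Or.inl ⟨h1, h2, ?_⟩)
      rcases h3 with h3 | h3
      · left; simp only [cst]; rw [h3]; push_cast; ring
      · right; simp only [cst]; rw [h3]; push_cast; ring
    · refine Or.inr (Or.inr ⟨h1, ?_⟩)
      simp only [cst]; rw [h2]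

lemma cst_sh_n (n : ℕ) (t : ZMod n) (x : W) (k : ℤ) : cst n t (sh (k + n) x) = cst n t (sh k x) := by
  unfold cst sh
  simp

/-- the Hamiltonian cycles -/
theorem ham_of_data (D : Data) (hD : D.Good) (m : ℕ) (t : ZMod (6 * m + 10)) :
    ∃ (v : Bool × ZMod (6 * m + 10)) (c : (GP (6 * m + 10) 2).Walk v v), c.IsHamiltonianCycle ∧
      ∀ x y, ([x, y] <:+: D.F0 ∨ [x, y] <:+: D.B0) →
        s(cst _ t x, cst _ t y) ∈ c.edges := by
  obtain ⟨hnd, hmem⟩ := L_prop D hD m
  have hch := L_chain D hD m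
  have hne : D.L m ≠ [] := by
    intro h
    have := (hmem (true, 1)).2 ⟨by norm_num, by simp only; omega⟩
    rw [h] at this
    exact absurd this (List.not_mem_nil)
  obtain ⟨a, l, hal⟩ := List.exists_cons_of_ne_nil hne
  have hcast : ∀ x ∈ D.L m, ∀ y ∈ D.L m, cst (6 * m + 10) t x = cst _ t y → x = y := by
    intro x hx y hy hxy
    have e1 : x.1 = y.1 := by
      have := congrArg Prod.fst hxy
      simpa [cst] using this
    have e2 : (x.2 : ZMod (6 * m + 10)) = y.2 := by
      have := congrArg Prod.snd hxy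
      simpa [cst] using this
    have h1 := (hmem x).1 hx
    have h2 := (hmem y).1 hy
    exact Prod.ext e1 (intCast_inj_of_lt e2 (by push_cast; omega) (by push_cast; omega))
  have hchain : ((D.L m).map (cst (6 * m + 10) t)).IsChain (GP (6 * m + 10) 2).Adj := by
    rw [List.isChain_map]
    exact hch.imp (fun x y h => adj_cst _ (by omega) t x y h)
  have hnodup : ((D.L m).map (cst (6 * m + 10) t)).Nodup := hnd.map_on hcast
  have hall : ∀ z, z ∈ (D.L m).map (cst (6 * m + 10) t) := by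
    intro z
    rw [List.mem_map]
    have : NeZero (6 * m + 10) := ⟨by omega⟩
    have hlt : (z.2 - t - 1).val < 6 * m + 10 := ZMod.val_lt _
    refine ⟨(z.1, ((z.2 - t - 1).val : ℤ) + 1), (hmem _).2 ⟨by simp only; omega, by simp only; omega⟩, ?_⟩
    refine Prod.ext rfl ?_
    simp only [cst]
    push_cast
    rw [ZMod.natCast_zmod_val]
    ring
  rw [hal, List.map_cons] at hchain hnodup hall
  have hlen : 2 ≤ (l.map (cst (6 * m + 10) t)).length := by
    have h1 : (true, 1) ∈ D.L m := (hmem (true, 1)).2 ⟨by norm_num, by simp only; omega⟩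
    have h2 : (true, 2) ∈ D.L m := (hmem (true, 2)).2 ⟨by norm_num, by simp only; omega⟩
    have h3 : (true, 3) ∈ D.L m := (hmem (true, 3)).2 ⟨by norm_num, by simp only; omega⟩
    have hsub : ([(true, 1), (true, 2), (true, 3)] : List W) ⊆ D.L m := by
      intro x hx
      simp only [List.mem_cons, List.not_mem_nil, or_false] at hx
      rcases hx with rfl | rfl | rfl
      · exact h1
      · exact h2
      · exact h3
    have h4 := (List.Nodup.subperm (by decide) hsub).length_le
    rw [hal] at h4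
    simp only [List.length_cons, List.length_nil] at h4
    rw [List.length_map]
    omega
  have hcl : (GP (6 * m + 10) 2).Adj
      ((cst (6 * m + 10) t a :: l.map (cst (6 * m + 10) t)).getLast (List.cons_ne_nil _ _))
      (cst (6 * m + 10) t a) := by
    obtain ⟨-, -, -, -, -, -, -, -, -, -, -, h6, -, h8, -, h10, h11⟩ := hD
    have e1 : (cst (6 * m + 10) t a :: l.map (cst (6 * m + 10) t)).getLast (List.cons_ne_nil _ _) =
        cst (6 * m + 10) t ((D.L m).getLast hne) := by
      have : (cst (6 * m + 10) t a :: l.map (cst (6 * m + 10) t)) = (D.L m).map (cst _ t) := by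
        rw [hal, List.map_cons]
      simp only [this, List.getLast_map]
    rw [e1]
    have ha : a ∈ D.F0.head? := by
      have : (D.L m).head? = D.F0.head? := by
        obtain ⟨r, hr⟩ := (Fm_prefix D.F0 D.FB m).trans (List.prefix_append _ (Bm D.BB D.B0 m))
        unfold Data.L
        rw [← hr, List.head?_append_of_ne_nil _ h10]
      rw [← this, hal]; simp
    rcases h11 with ⟨h12, h13⟩ | ⟨h12, h13⟩
    · -- single strand
      have hBB : D.BB = [] := by
        rw [h12] at h8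
        simpa using h8
      have hB : ∀ k, Bm D.BB D.B0 k = [] := by
        intro k
        induction k with
        | zero => exact h12
        | succ k ih => rw [Bm, ih, hBB]; rfl
      have hL : (D.L m).getLast? = D.F0.getLast?.map (sh (6 * m)) := by
        unfold Data.L
        rw [hB m, List.append_nil, Fm_last _ _ h10 h6 m]
      rw [List.getLast?_eq_some_getLast hne] at hL
      obtain ⟨e, he, hee⟩ := Option.map_eq_some_iff.1 hL.symm
      rw [← hee]
      have h14 := h13 e he a ha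
      have h15 : cst (6 * m + 10) t (sh (6 * m) e) = cst (6 * m + 10) t (sh (-10) e) := by
        have := cst_sh_n (6 * m + 10) t e (-10)
        rw [← this]
        congr 2
        push_cast; ring
      rw [h15]
      exact adj_cst _ (by omega) t _ _ h14
    · have hlast : (D.L m).getLast? = D.B0.getLast? := by
        unfold Data.L
        obtain ⟨r, hr⟩ := Bm_suffix D.BB D.B0 m
        rw [← hr, ← List.append_assoc, List.getLast?_append_of_ne_nil _ h12]
      rw [List.getLast?_eq_some_getLast hne] at hlast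
      exact adj_cst _ (by omega) t _ _ (h13 _ hlast.symm a ha)
  obtain ⟨v, c, hc, hce⟩ := exists_ham _ _ hlen hchain hnodup hall hcl
  refine ⟨v, c, hc, ?_⟩
  intro x y hxy
  apply hce
  have h1 : [x, y] <:+: D.L m := by
    rcases hxy with h | h
    · exact h.trans (F0_infix D m)
    · exact h.trans (B0_infix D m)
  have h2 := h1.map (cst (6 * m + 10) t)
  rw [hal, List.map_cons] at h2
  exact h2


/-- the four families -/
def D1 : Data := ⟨[(false, 1), (true, 1), (true, 3), (true, 5), (false, 5), (false, 4), (false, 3),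
    (false, 2), (true, 2), (true, 4), (true, 6), (false, 6), (false, 7), (true, 7), (true, 9),
    (false, 9), (false, 8), (true, 8), (true, 10), (false, 10)],
  [(false, 11), (true, 11), (true, 13), (true, 15), (false, 15), (false, 14), (false, 13),
    (false, 12), (true, 12), (true, 14), (true, 16), (false, 16)], [], []⟩

def D2 : Data := ⟨[(true, 1), (false, 1), (false, 2), (true, 2), (true, 4), (true, 6), (true, 8),
    (true, 10), (false, 10), (false, 9), (false, 8), (false, 7), (false, 6), (false, 5), (false, 4),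
    (false, 3), (true, 3), (true, 5), (true, 7), (true, 9)],
  [(true, 11), (false, 11), (false, 12), (true, 12), (true, 14), (true, 16), (false, 16),
    (false, 15), (false, 14), (false, 13), (true, 13), (true, 15)], [], []⟩

def D3 : Data := ⟨[(false, 1), (true, 1), (true, 3), (false, 3), (false, 2), (true, 2), (true, 4),
    (false, 4), (false, 5), (true, 5), (true, 7), (true, 9), (false, 9), (false, 8), (false, 7),
    (false, 6), (true, 6), (true, 8), (true, 10), (false, 10)],
  [(false, 11), (true, 11), (true, 13), (true, 15), (false, 15), (false, 14), (false, 13),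
    (false, 12), (true, 12), (true, 14), (true, 16), (false, 16)], [], []⟩

def D4 : Data := ⟨[(false, 1), (false, 2), (true, 2), (true, 4), (true, 6), (false, 6), (false, 7),
    (false, 8), (true, 8), (true, 10)],
  [(true, 12), (false, 12), (false, 13), (false, 14), (true, 14), (true, 16)],
  [(false, 16), (false, 15), (true, 15), (true, 13), (true, 11), (false, 11)],
  [(false, 10), (false, 9), (true, 9), (true, 7), (true, 5), (false, 5), (false, 4), (false, 3),
    (true, 3), (true, 1)]⟩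

lemma D1_good : D1.Good := by decide
lemma D2_good : D2.Good := by decide
lemma D3_good : D3.Good := by decide
lemma D4_good : D4.Good := by decide

/-- a local step -/
def stp (x : W) (k : Fin 3) : W :=
  if k = 0 then (x.1, x.2 + if x.1 then 2 else 1)
  else if k = 1 then (x.1, x.2 - if x.1 then 2 else 1)
  else (!x.1, x.2)

/-- consecutive pairs of a list -/
def prs : List W → List (W × W)
  | [] => []
  | [_] => []
  | a :: b :: l => (a, b) :: prs (b :: l)

lemma infix_of_mem_prs : ∀ (l : List W) (x y : W), (x, y) ∈ prs l → [x, y] <:+: l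
  | [], x, y, h => by simp [prs] at h
  | [a], x, y, h => by simp [prs] at h
  | a :: b :: l, x, y, h => by
    rw [prs, List.mem_cons] at h
    rcases h with h | h
    · have h1 : x = a := by have := congrArg Prod.fst h; exact this
      have h2 : y = b := by have := congrArg Prod.snd h; exact this
      subst h1 h2
      exact ⟨[], l, rfl⟩
    · exact (infix_of_mem_prs (b :: l) x y h).trans (List.suffix_cons a _).isInfix

/-- the pair occurs in the data -/
def Data.has (D : Data) (x y : W) : Bool :=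
  ((x, y) ∈ prs D.F0) || ((y, x) ∈ prs D.F0) || ((x, y) ∈ prs D.B0) || ((y, x) ∈ prs D.B0)

/-- the finite check for a coded path -/
def chk (D : Data) (c : ℤ) (a : Bool) (k1 k2 k3 k4 : Fin 3) : Bool :=
  let x0 : W := (a, c)
  let x1 := stp x0 k1
  let x2 := stp x1 k2
  let x3 := stp x2 k3
  let x4 := stp x3 k4
  D.has x0 x1 && D.has x1 x2 && D.has x2 x3 && D.has x3 x4

/-- back-tracking pairs of moves -/
def bk (k1 k2 : Fin 3) : Bool := (k1 == 0 && k2 == 1) || (k1 == 1 && k2 == 0) || (k1 == 2 && k2 == 2)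

lemma all_chk : ∀ (a : Bool) (k1 k2 k3 k4 : Fin 3), bk k1 k2 = false → bk k2 k3 = false →
    bk k3 k4 = false → ∃ c ∈ List.range 11, chk D1 c a k1 k2 k3 k4 = true ∨
      chk D2 c a k1 k2 k3 k4 = true ∨ chk D3 c a k1 k2 k3 k4 = true ∨
      chk D4 c a k1 k2 k3 k4 = true := by
  decide +kernel


/-- a step in the cyclic graph -/
def stpZ {n : ℕ} (x : Bool × ZMod n) (k : Fin 3) : Bool × ZMod n :=
  if k = 0 then (x.1, x.2 + if x.1 then 2 else 1)
  else if k = 1 then (x.1, x.2 - if x.1 then 2 else 1)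
  else (!x.1, x.2)

lemma cst_stp (n : ℕ) (t : ZMod n) (x : W) (k : Fin 3) :
    cst n t (stp x k) = stpZ (cst n t x) k := by
  obtain ⟨a, i⟩ := x
  fin_cases k <;> cases a <;> simp [cst, stp, stpZ] <;> ring

lemma exists_stpZ {n : ℕ} {x y : Bool × ZMod n} (h : (GP n 2).Adj x y) : ∃ k, y = stpZ x k := by
  obtain ⟨a, i⟩ := x
  obtain ⟨b, j⟩ := y
  obtain ⟨-, h⟩ := h
  simp only at h
  rcases h with ⟨h1, h2, h3⟩ | ⟨h1, h2, h3⟩ | ⟨h1, h2⟩
  · subst h1 h2
    rcases h3 with h3 | h3
    · exact ⟨0, by simp [stpZ, h3]⟩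
    · exact ⟨1, by simp [stpZ, h3]⟩
  · subst h1 h2
    rcases h3 with h3 | h3
    · exact ⟨0, by simp [stpZ, h3]⟩
    · exact ⟨1, by simp [stpZ, h3]⟩
  · subst h2
    refine ⟨2, ?_⟩
    cases a <;> cases b <;> simp_all [stpZ]

lemma stpZ_bk {n : ℕ} (x : Bool × ZMod n) (k1 k2 : Fin 3) (h : bk k1 k2 = true) :
    stpZ (stpZ x k1) k2 = x := by
  obtain ⟨a, i⟩ := x
  fin_cases k1 <;> fin_cases k2 <;> simp [bk] at h <;> cases a <;> simp [stpZ]

lemma has_spec {D : Data} {x y : W} (h : D.has x y = true) :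
    ([x, y] <:+: D.F0 ∨ [x, y] <:+: D.B0) ∨ ([y, x] <:+: D.F0 ∨ [y, x] <:+: D.B0) := by
  simp only [Data.has, Bool.or_eq_true, decide_eq_true_eq] at h
  rcases h with ((h | h) | h) | h
  · exact Or.inl (Or.inl (infix_of_mem_prs _ _ _ h))
  · exact Or.inr (Or.inl (infix_of_mem_prs _ _ _ h))
  · exact Or.inl (Or.inr (infix_of_mem_prs _ _ _ h))
  · exact Or.inr (Or.inr (infix_of_mem_prs _ _ _ h))

/-- from a passed check to a Hamiltonian cycle -/
lemma ham_of_chk (D : Data) (hD : D.Good) (m : ℕ) (x : Bool × ZMod (6 * m + 10)) (c : ℤ)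
    (k1 k2 k3 k4 : Fin 3) (h : chk D c x.1 k1 k2 k3 k4 = true) :
    ∃ (v : Bool × ZMod (6 * m + 10)) (w : (GP (6 * m + 10) 2).Walk v v), w.IsHamiltonianCycle ∧
      s(x, stpZ x k1) ∈ w.edges ∧ s(stpZ x k1, stpZ (stpZ x k1) k2) ∈ w.edges ∧
      s(stpZ (stpZ x k1) k2, stpZ (stpZ (stpZ x k1) k2) k3) ∈ w.edges ∧
      s(stpZ (stpZ (stpZ x k1) k2) k3, stpZ (stpZ (stpZ (stpZ x k1) k2) k3) k4) ∈ w.edges := by
  obtain ⟨v, w, hw, he⟩ := ham_of_data D hD m (x.2 - c)
  have hx : cst (6 * m + 10) (x.2 - c) (x.1, c) = x := by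
    refine Prod.ext rfl ?_
    simp [cst]
  have he' : ∀ a b : W, D.has a b = true →
      s(cst (6 * m + 10) (x.2 - c) a, cst (6 * m + 10) (x.2 - c) b) ∈ w.edges := by
    intro a b hab
    rcases has_spec hab with h | h
    · exact he a b h
    · rw [Sym2.eq_swap]; exact he b a h
  simp only [chk, Bool.and_eq_true] at h
  obtain ⟨⟨⟨h1, h2⟩, h3⟩, h4⟩ := h
  have g1 := he' _ _ h1
  have g2 := he' _ _ h2
  have g3 := he' _ _ h3
  have g4 := he' _ _ h4
  simp only [cst_stp, hx] at g1 g2 g3 g4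
  exact ⟨v, w, hw, g1, g2, g3, g4⟩

/-- every non-backtracking path with five vertices lies on a Hamiltonian cycle -/
theorem main5 (m : ℕ) (x0 x1 x2 x3 x4 : Bool × ZMod (6 * m + 10))
    (h1 : (GP (6 * m + 10) 2).Adj x0 x1) (h2 : (GP (6 * m + 10) 2).Adj x1 x2)
    (h3 : (GP (6 * m + 10) 2).Adj x2 x3) (h4 : (GP (6 * m + 10) 2).Adj x3 x4)
    (n1 : x2 ≠ x0) (n2 : x3 ≠ x1) (n3 : x4 ≠ x2) :
    ∃ (v : Bool × ZMod (6 * m + 10)) (w : (GP (6 * m + 10) 2).Walk v v), w.IsHamiltonianCycle ∧
      s(x0, x1) ∈ w.edges ∧ s(x1, x2) ∈ w.edges ∧ s(x2, x3) ∈ w.edges ∧ s(x3, x4) ∈ w.edges := by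
  obtain ⟨k1, rfl⟩ := exists_stpZ h1
  obtain ⟨k2, rfl⟩ := exists_stpZ h2
  obtain ⟨k3, rfl⟩ := exists_stpZ h3
  obtain ⟨k4, rfl⟩ := exists_stpZ h4
  have b1 : bk k1 k2 = false := by
    by_contra hb
    exact n1 (stpZ_bk _ _ _ (by simpa using hb))
  have b2 : bk k2 k3 = false := by
    by_contra hb
    exact n2 (stpZ_bk _ _ _ (by simpa using hb))
  have b3 : bk k3 k4 = false := by
    by_contra hb
    exact n3 (stpZ_bk _ _ _ (by simpa using hb))
  obtain ⟨c, -, hc⟩ := all_chk x0.1 k1 k2 k3 k4 b1 b2 b3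
  rcases hc with hc | hc | hc | hc
  · exact ham_of_chk D1 D1_good m x0 c k1 k2 k3 k4 hc
  · exact ham_of_chk D2 D2_good m x0 c k1 k2 k3 k4 hc
  · exact ham_of_chk D3 D3_good m x0 c k1 k2 k3 k4 hc
  · exact ham_of_chk D4 D4_good m x0 c k1 k2 k3 k4 hc

lemma cast_ne (m : ℕ) (a b : ℤ) (h : a ≠ b) (h1 : a - b < 10) (h2 : b - a < 10) :
    (a : ZMod (6 * m + 10)) ≠ b := by
  intro he
  exact h (intCast_inj_of_lt he (by push_cast; omega) (by push_cast; omega))

lemma stpZ_adj (m : ℕ) (x : Bool × ZMod (6 * m + 10)) (k : Fin 3) :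
    (GP (6 * m + 10) 2).Adj x (stpZ x k) := by
  have h := adj_cst (6 * m + 10) (by omega) x.2 (x.1, 0) (stp (x.1, 0) k) (by
    obtain ⟨a, i⟩ := x
    fin_cases k <;> cases a <;> simp [stp, R])
  rw [cst_stp] at h
  have hx : cst (6 * m + 10) x.2 (x.1, 0) = x := by
    refine Prod.ext rfl ?_
    simp [cst]
  rw [hx] at h
  exact h

lemma stpZ_ne (m : ℕ) (x : Bool × ZMod (6 * m + 10)) (k l : Fin 3) (h : k ≠ l) :
    stpZ x k ≠ stpZ x l := by
  obtain ⟨a, i⟩ := x
  have h2 := cast_ne m 2 0 (by norm_num) (by norm_num) (by norm_num)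
  have h4 := cast_ne m 4 0 (by norm_num) (by norm_num) (by norm_num)
  push_cast at h2 h4
  intro he
  have e1 := congrArg Prod.fst he
  have e2 := congrArg Prod.snd he
  fin_cases k <;> fin_cases l <;> cases a <;> simp [stpZ] at h e1 e2
  · exact h2 (by linear_combination e2)
  · exact h4 (by linear_combination e2)
  · exact h2 (by linear_combination -e2)
  · exact h4 (by linear_combination -e2)

lemma neighborSet_eq (m : ℕ) (x : Bool × ZMod (6 * m + 10)) :
    (GP (6 * m + 10) 2).neighborSet x = {stpZ x 0, stpZ x 1, stpZ x 2} := by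
  ext y
  simp only [mem_neighborSet, Set.mem_insert_iff, Set.mem_singleton_iff]
  constructor
  · intro h
    obtain ⟨k, rfl⟩ := exists_stpZ h
    fin_cases k
    · exact Or.inl rfl
    · exact Or.inr (Or.inl rfl)
    · exact Or.inr (Or.inr rfl)
  · rintro (rfl | rfl | rfl) <;> exact stpZ_adj _ _ _

lemma cubic (m : ℕ) (x : Bool × ZMod (6 * m + 10)) :
    ((GP (6 * m + 10) 2).neighborSet x).ncard = 3 := by
  rw [neighborSet_eq, Set.ncard_eq_three]
  exact ⟨_, _, _, stpZ_ne m x 0 1 (by decide), stpZ_ne m x 0 2 (by decide),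
    stpZ_ne m x 1 2 (by decide), rfl⟩

lemma extend (m : ℕ) (x y : Bool × ZMod (6 * m + 10)) :
    ∃ z, (GP (6 * m + 10) 2).Adj y z ∧ z ≠ x := by
  by_cases h : stpZ y 0 = x
  · exact ⟨stpZ y 1, stpZ_adj _ _ _, fun h' => stpZ_ne m y 1 0 (by decide) (h'.trans h.symm)⟩
  · exact ⟨stpZ y 0, stpZ_adj _ _ _, h⟩

end Pool.Agent.Q108.Petersen2
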