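import Mathlib

set_option autoImplicit false

/-! Signs on the edges of a graph with small one-sided discrepancy on all induced subgraphs. -/

namespace Pool.Agent.Q108.SignDisc

open Finset

variable {E : Type} [Fintype E] [DecidableEq E]

/-- the value of a sign -/
def sg (b : Bool) : ℝ := if b then 1 else -1

/-- the sum of the signs over a set of edges -/
def disc (σ : E → Bool) (A : Finset E) : ℝ := ∑ e ∈ A, sg (σ e)

lemma sum_exp (t : ℝ) (A : Finset E) :
    ∑ σ : E → Bool, Real.exp (t * disc σ A) = 2 ^ (Fintype.card E) * (Real.cosh t) ^ A.card := by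
  have h1 : ∀ σ : E → Bool, Real.exp (t * disc σ A) =
      ∏ e : E, (if e ∈ A then Real.exp (t * sg (σ e)) else 1) := by
    intro σ
    rw [disc, Finset.mul_sum, Real.exp_sum, Finset.prod_ite_mem, Finset.univ_inter]
  simp_rw [h1]
  have h2 := Finset.prod_univ_sum (fun _ : E => (Finset.univ : Finset Bool))
    (fun (e : E) (b : Bool) => (if e ∈ A then Real.exp (t * sg b) else (1 : ℝ)))
  rw [Fintype.piFinset_univ] at h2
  rw [← h2]
  have h3 : ∀ e : E, ∑ b : Bool, (if e ∈ A then Real.exp (t * sg b) else (1 : ℝ)) =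
      2 * (if e ∈ A then Real.cosh t else 1) := by
    intro e
    rw [Fintype.sum_bool]
    by_cases he : e ∈ A
    · simp only [he, if_true, sg]
      rw [Real.cosh_eq]
      simp
      ring
    · simp only [he, if_false]
      norm_num
  simp_rw [h3]
  rw [Finset.prod_mul_distrib, Finset.prod_const, Finset.card_univ, Finset.prod_ite_mem,
    Finset.univ_inter, Finset.prod_const]

/-- there are signs with small discrepancy on all members of a family of edge sets -/
theorem exists_sign {ι : Type} [Fintype ι] [Nonempty ι] (A : ι → Finset E) (t : ℝ) (ht : 0 < t) :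
    ∃ σ : E → Bool, ∀ i, |disc σ (A i)| ≤
      (Real.log (2 * Fintype.card ι)) / t + t * Fintype.card E / 2 := by
  classical
  set c : ℝ := (Fintype.card E : ℝ) with hc
  set N : ℝ := (Fintype.card ι : ℝ) with hN
  have hNpos : 0 < N := by rw [hN]; exact_mod_cast Fintype.card_pos
  have htot : ∑ σ : E → Bool, ∑ i : ι, (Real.exp (t * disc σ (A i)) +
      Real.exp ((-t) * disc σ (A i))) ≤
      ∑ σ : E → Bool, (2 * N * Real.exp (t ^ 2 / 2 * c)) := by
    rw [Finset.sum_comm]
    have h1 : ∀ i : ι, ∑ σ : E → Bool, (Real.exp (t * disc σ (A i)) +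
        Real.exp ((-t) * disc σ (A i))) ≤ 2 * (2 ^ (Fintype.card E) * Real.exp (t ^ 2 / 2 * c)) := by
      intro i
      rw [Finset.sum_add_distrib, sum_exp, sum_exp, Real.cosh_neg]
      have h2 : (Real.cosh t) ^ (A i).card ≤ Real.exp (t ^ 2 / 2 * c) := by
        calc (Real.cosh t) ^ (A i).card ≤ (Real.cosh t) ^ (Fintype.card E) := by
              apply pow_le_pow_right₀ (Real.one_le_cosh t)
              exact Finset.card_le_univ _
          _ ≤ (Real.exp (t ^ 2 / 2)) ^ (Fintype.card E) := by
              apply pow_le_pow_left₀ (Real.cosh_pos t).le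
              exact Real.cosh_le_exp_half_sq t
          _ = Real.exp (t ^ 2 / 2 * c) := by
              rw [← Real.exp_nat_mul, hc]; ring_nf
      have h3 : (0 : ℝ) < 2 ^ (Fintype.card E) := by positivity
      nlinarith [mul_le_mul_of_nonneg_left h2 h3.le]
    refine (Finset.sum_le_sum (fun i _ => h1 i)).trans ?_
    rw [Finset.sum_const, Finset.sum_const, Finset.card_univ, Finset.card_univ]
    simp only [Fintype.card_pi, Fintype.card_bool, Finset.prod_const, Finset.card_univ,
      nsmul_eq_mul]
    rw [← hN]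
    push_cast
    apply le_of_eq; ring
  obtain ⟨σ, -, hσ⟩ := Finset.exists_le_of_sum_le (s := (Finset.univ : Finset (E → Bool)))
    (Finset.univ_nonempty) htot
  refine ⟨σ, fun i => ?_⟩
  have h4 : ∀ s : ℝ, (s = t ∨ s = -t) → Real.exp (s * disc σ (A i)) ≤
      2 * N * Real.exp (t ^ 2 / 2 * c) := by
    intro s hs
    have h5 : Real.exp (t * disc σ (A i)) + Real.exp ((-t) * disc σ (A i)) ≤
        2 * N * Real.exp (t ^ 2 / 2 * c) := by
      refine le_trans ?_ hσ
      exact Finset.single_le_sum (f := fun i => Real.exp (t * disc σ (A i)) +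
        Real.exp ((-t) * disc σ (A i))) (fun j _ => by positivity) (Finset.mem_univ i)
    have p1 := Real.exp_pos (t * disc σ (A i))
    have p2 := Real.exp_pos ((-t) * disc σ (A i))
    rcases hs with rfl | rfl <;> linarith
  have h6 : ∀ s : ℝ, (s = t ∨ s = -t) → s * disc σ (A i) ≤
      Real.log (2 * N) + t ^ 2 / 2 * c := by
    intro s hs
    have h7 := Real.log_le_log (Real.exp_pos _) (h4 s hs)
    rw [Real.log_exp, Real.log_mul (by positivity) (Real.exp_pos _).ne', Real.log_exp] at h7
    exact h7
  rw [abs_le]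
  have g1 := h6 t (Or.inl rfl)
  have g2 := h6 (-t) (Or.inr rfl)
  have e1 : (Real.log (2 * N)) / t + t * c / 2 = (Real.log (2 * N) + t ^ 2 / 2 * c) / t := by
    field_simp
  rw [e1]
  constructor
  · rw [neg_le, le_div_iff₀ ht]; linarith
  · rw [le_div_iff₀ ht]; linarith

end Pool.Agent.Q108.SignDisc
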