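import Mathlib

set_option autoImplicit false

/-! Ranks and labels for tolerance graphs. -/

namespace Q108.Tolerance

open Finset

section rank

variable {V : Type} [Fintype V]

open Classical in
/-- number of `u` with `f u < x` -/
noncomputable def lo (f : V → ℝ) (x : ℝ) : ℕ := (univ.filter fun u => f u < x).card

open Classical in
/-- number of `u` with `f u ≤ x` -/
noncomputable def hi (f : V → ℝ) (x : ℝ) : ℕ := (univ.filter fun u => f u ≤ x).card

lemma lo_le (f : V → ℝ) (x : ℝ) : lo f x ≤ Fintype.card V := Finset.card_le_univ _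

lemma hi_le (f : V → ℝ) (x : ℝ) : hi f x ≤ Fintype.card V := Finset.card_le_univ _

lemma rank_iff (f : V → ℝ) (v : V) (x : ℝ) : f v ≤ x ↔ lo f (f v) < hi f x := by
  classical
  constructor
  · intro h
    apply Finset.card_lt_card
    rw [Finset.ssubset_iff_of_subset]
    · exact ⟨v, by simp [h], by simp⟩
    · intro u hu
      simp only [mem_filter, mem_univ, true_and] at hu ⊢
      linarith
  · intro h
    by_contra hc
    push Not at hc
    have : hi f x ≤ lo f (f v) := by
      apply Finset.card_le_card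
      intro u hu
      simp only [mem_filter, mem_univ, true_and] at hu ⊢
      linarith
    omega

end rank

/-- encode eight numbers -/
def enc (x : Fin 8 → ℕ) : ℕ :=
  Nat.pair (Nat.pair (Nat.pair (x 0) (x 1)) (Nat.pair (x 2) (x 3)))
    (Nat.pair (Nat.pair (x 4) (x 5)) (Nat.pair (x 6) (x 7)))

/-- decode -/
def dec (m : ℕ) : Fin 8 → ℕ := fun i =>
  let a := if i.val < 4 then m.unpair.1 else m.unpair.2
  let b := if i.val % 4 < 2 then a.unpair.1 else a.unpair.2
  if i.val % 2 < 1 then b.unpair.1 else b.unpair.2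

lemma dec_enc (x : Fin 8 → ℕ) : dec (enc x) = x := by
  funext i
  fin_cases i <;> simp [dec, enc]

lemma pair_bound {N a b : ℕ} (ha : a + 1 ≤ N) (hb : b + 1 ≤ N) : Nat.pair a b + 1 ≤ N ^ 2 := by
  have h := Nat.pair_lt_max_add_one_sq a b
  have h2 : max a b + 1 ≤ N := by omega
  have h3 : (max a b + 1) ^ 2 ≤ N ^ 2 := Nat.pow_le_pow_left h2 2
  omega

lemma enc_bound {n : ℕ} (x : Fin 8 → ℕ) (hx : ∀ i, x i ≤ n) : enc x + 1 ≤ (n + 1) ^ 8 := by
  have h : ∀ i, x i + 1 ≤ n + 1 := fun i => by have := hx i; omega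
  have h2 := pair_bound (pair_bound (pair_bound (h 0) (h 1)) (pair_bound (h 2) (h 3)))
    (pair_bound (pair_bound (h 4) (h 5)) (pair_bound (h 6) (h 7)))
  calc enc x + 1 ≤ (((n + 1) ^ 2) ^ 2) ^ 2 := h2
    _ = (n + 1) ^ 8 := by ring

/-- half of the adjacency test -/
def test (x y : Fin 8 → ℕ) : Prop :=
  x 0 = 1 ∧ y 1 < x 2 ∧ x 3 < y 4 ∧ x 5 < y 6

instance (x y : Fin 8 → ℕ) : Decidable (test x y) := by unfold test; infer_instance

end Q108.Tolerance
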